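import Pool.Agent.H81.AP.Chk
import Pool.Agent.H78.Tie.Rule2

/-!
# Scaled form of the rules for ties

All quantities are measured in units of `1 / q`.  A level is represented by any integer `x`, its
level is `⌈x / q⌉`.
-/

namespace Pool.Agent.H78.RT

open Finset
open Pool.Agent.H98.Flat
open Pool.Agent.H67.Flat
open Pool.Agent.H78.Tie
open Pool.Agent.H78.Tie.TAp

/-- the length of the circle -/
abbrev NN (A : TAp) : ℤ := (A.p : ℤ) * A.q

/-- the level of a scaled abscissa -/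
def lvl (A : TAp) (x : ℤ) : ℤ := (x - 1) / A.q + 1

theorem NN_pos (A : TAp) : 0 < NN A := mul_pos A.p_pos' A.q_pos'

theorem InA_lvl (A : TAp) (x k n : ℤ) :
    InA A.p (lvl A x) k n ↔ InA (NN A) x (A.q * k) (A.q * n) := by
  have hq := A.q_pos'
  have hp := A.p_pos'
  unfold InA lvl NN
  have e1 := Int.mul_ediv_add_emod (x - 1) A.q
  have r0 := Int.emod_nonneg (x - 1) hq.ne'
  have r1 := Int.emod_lt_of_pos (x - 1) hq
  set d := (x - 1) / (A.q : ℤ)
  set ρ := (x - 1) % (A.q : ℤ)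
  have e2 := Int.mul_ediv_add_emod (d - k) A.p
  have t0 := Int.emod_nonneg (d - k) hp.ne'
  have t1 := Int.emod_lt_of_pos (d - k) hp
  rw [show d + 1 - k - 1 = d - k by ring]
  set z := (d - k) / (A.p : ℤ)
  set τ := (d - k) % (A.p : ℤ)
  have e3 : x - A.q * k - 1 = (A.q * τ + ρ) + A.p * A.q * z := by
    linear_combination -e1 - A.q * e2
  have u1 : A.q * τ + ρ < A.p * A.q := by
    have : τ + 1 ≤ A.p := by omega
    have : A.q * (τ + 1) ≤ A.q * A.p := mul_le_mul_of_nonneg_left this hq.le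
    nlinarith
  have u0 : 0 ≤ A.q * τ + ρ := by
    have : 0 ≤ A.q * τ := mul_nonneg hq.le t0
    omega
  rw [e3, Int.add_mul_emod_self_left, Int.emod_eq_of_lt u0 u1]
  constructor
  · intro h
    have : τ + 1 ≤ n := by omega
    have : A.q * (τ + 1) ≤ A.q * n := mul_le_mul_of_nonneg_left this hq.le
    nlinarith
  · intro h
    by_contra hc
    have : n ≤ τ := by omega
    have : A.q * n ≤ A.q * τ := mul_le_mul_of_nonneg_left this hq.le
    omega

/-- position in `[0, D)` modulo `N` -/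
def Pos (A : TAp) (y : ℤ) : Prop := y % NN A < A.D

instance (A : TAp) (y : ℤ) : Decidable (Pos A y) := by unfold Pos; infer_instance

instance (p x lo len : ℤ) : Decidable (InA p x lo len) := by unfold InA; infer_instance

theorem InL_iff (A : TAp) (m f y : ℤ) (h : y = A.q * m + f) : A.InL m f ↔ Pos A y := by
  rw [h]; exact Iff.rfl

/-- the function `Φ` at scaled levels -/
def PhiZ (A : TAp) (c b x : ℤ) : ℤ :=
  - (if Pos A c ∧ InA (NN A) x (-(A.q * A.h)) (A.q * A.h) then 1 else 0)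
  + (if Pos A (c - A.q * A.w) ∧ InA (NN A) x (-(A.q * A.w) - A.q * A.h) (A.q * A.h) then 1 else 0)
  + (if Pos A b ∧ InA (NN A) x (-(A.q * A.w)) (A.q * A.w) then 1 else 0)
  - (if Pos A (b + A.q * A.h) ∧ InA (NN A) x (-(A.q * A.w) - A.q * A.h) (A.q * A.w) then 1 else 0)

theorem Phi_lvl (A : TAp) (mc fc mb fb x : ℤ) :
    A.Phi mc fc mb fb (lvl A x) = PhiZ A (A.q * mc + fc) (A.q * mb + fb) x := by
  unfold TAp.Phi PhiZ
  have t : ∀ (P Q : Prop) [Decidable P] [Decidable Q], (P ↔ Q) →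
      (if P then (1 : ℤ) else 0) = if Q then 1 else 0 := by
    intro P Q _ _ h; exact if_congr h rfl rfl
  have i1 := InL_iff A mc fc _ rfl
  have i2 := InL_iff A (mc - A.w) fc (A.q * mc + fc - A.q * A.w) (by ring)
  have i3 := InL_iff A mb fb _ rfl
  have i4 := InL_iff A (mb + A.h) fb (A.q * mb + fb + A.q * A.h) (by ring)
  have j1 := InA_lvl A x (-A.h) A.h
  have j2 := InA_lvl A x (-A.w - A.h) A.h
  have j3 := InA_lvl A x (-A.w) A.w
  have j4 := InA_lvl A x (-A.w - A.h) A.w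
  rw [show (A.q : ℤ) * (-A.h) = -(A.q * A.h) by ring] at j1
  rw [show (A.q : ℤ) * (-A.w - A.h) = -(A.q * A.w) - A.q * A.h by ring] at j2 j4
  rw [show (A.q : ℤ) * (-A.w) = -(A.q * A.w) by ring] at j3
  rw [t _ _ (and_congr i1 j1), t _ _ (and_congr i2 j2), t _ _ (and_congr i3 j3),
    t _ _ (and_congr i4 j4)]

/-! ### records -/

/-- the record `(U, S, θ)` belongs to the index `i` -/
def Rec (A : TAp) (i U S θ : ℤ) : Prop :=
  NN A ∣ A.a * i - U ∧ (∃ s, S = A.q * s ∧ (A.p : ℤ) ∣ A.e * i - s) ∧ A.D * i = A.p * θ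

theorem Rec.lin {A : TAp} {i U S θ i' U' S' θ' : ℤ} (h : Rec A i U S θ)
    (h' : Rec A i' U' S' θ') (c : ℤ) :
    Rec A (c * i + i') (c * U + U') (c * S + S') (c * θ + θ') := by
  obtain ⟨⟨x, hx⟩, ⟨s, hs, y, hy⟩, hz⟩ := h
  obtain ⟨⟨x', hx'⟩, ⟨s', hs', y', hy'⟩, hz'⟩ := h'
  exact ⟨⟨c * x + x', by linear_combination c * hx + hx'⟩,
    ⟨c * s + s', by linear_combination c * hs + hs', c * y + y',
      by linear_combination c * hy + hy'⟩, by linear_combination c * hz + hz'⟩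

theorem Rec.zero (A : TAp) : Rec A 0 0 0 0 := ⟨by simp, ⟨0, by simp⟩, by simp⟩

/-- index `p` -/
theorem Rec.P (A : TAp) : Rec A A.p A.D 0 A.D := by
  refine ⟨?_, ⟨0, by simp, ⟨A.e, by ring⟩⟩, by ring⟩
  exact A.hd

/-- index `q` -/
theorem Rec.Q (A : TAp) {R : ℤ} (hR : A.D * A.q = A.p * R) :
    Rec A A.q 0 (-(A.om * (A.q * A.h))) R := by
  refine ⟨?_, ⟨-(A.om * A.h), by ring, ?_⟩, hR⟩
  · obtain ⟨c, hc⟩ := A.hpa
    exact ⟨c, by rw [hc]; unfold NN; ring⟩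
  · have := A.hqe
    rwa [sub_neg_eq_add]

/-- the row changes by `p` -/
theorem Rec.S (A : TAp) : Rec A 0 0 (NN A) 0 :=
  ⟨by simp, ⟨A.p, by unfold NN; ring, by simp⟩, by simp⟩

/-- the column changes by `p` -/
theorem Rec.M (A : TAp) : Rec A 0 (NN A) 0 0 := ⟨⟨-1, by ring⟩, ⟨0, by simp⟩, by simp⟩

theorem D_pos (A : TAp) : 0 < A.D := by
  have h1 := A.hfd
  have h2 : 0 ≤ (A.q : ℤ) * A.md := mul_nonneg A.q_pos'.le A.hmd
  unfold TAp.D; omega

/-- class `i` with its record -/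
def IsC (A : TAp) (i U S θ : ℤ) : Prop := Rec A i U S θ ∧ 0 < i ∧ i < A.p

theorem Rec.isC {A : TAp} {i U S θ : ℤ} (h : Rec A i U S θ) (h0 : 0 < θ) (h1 : θ < A.D) :
    IsC A i U S θ := by
  have hD := D_pos A
  have hp := A.p_pos'
  have e := h.2.2
  refine ⟨h, ?_, ?_⟩
  · have : 0 < A.D * i := by rw [e]; exact mul_pos hp h0
    exact (mul_pos_iff_of_pos_left hD).1 this
  · have : A.D * i < A.D * A.p := by
      rw [e, mul_comm A.D]; exact mul_lt_mul_of_pos_left h1 hp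
    exact lt_of_mul_lt_mul_left this hD.le

theorem IsC.nd {A : TAp} {i U S θ : ℤ} (h : IsC A i U S θ) : ¬ (A.q : ℤ) ∣ U := by
  intro hU
  have h1 := (dvd_mul_left (A.q : ℤ) A.p).trans h.1.1
  have h2 := dvd_add h1 hU
  rw [sub_add_cancel] at h2
  refine A.gen i (by have := h.2.1; omega) ?_ h2
  rw [abs_le]
  have := h.2.1
  have := h.2.2
  constructor <;> omega

/-- the class of a record in terms of lifts -/
theorem IsC.cls {A : TAp} {i U S θ : ℤ} (h : IsC A i U S θ) : ∃ m f s,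
    A.Cls i m f s ∧ U = A.q * m + f ∧ S = A.q * s ∧ 0 < f ∧ f < A.q := by
  obtain ⟨⟨h1, ⟨s, hs, h2⟩, h3⟩, i0, i1⟩ := id h
  have hq := A.q_pos'
  have e1 := Int.mul_ediv_add_emod U A.q
  have r0 := Int.emod_nonneg U hq.ne'
  have r1 := Int.emod_lt_of_pos U hq
  have f0 : 0 < U % (A.q : ℤ) := by
    rcases lt_or_eq_of_le r0 with h4 | h4
    · exact h4
    · exact absurd (Int.dvd_of_emod_eq_zero h4.symm) h.nd
  refine ⟨U / A.q, U % A.q, s, ⟨i0, i1, f0, r1, ?_, h2⟩, e1.symm, hs, f0, r1⟩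
  rw [e1]; exact h1

theorem lvl_beta {A : TAp} {mc fc mb fb : ℤ} (c0 : 0 < fc) (c1 : fc < A.q) (b0 : 0 < fb)
    (b1 : fb < A.q) (hne : fb ≠ fc) :
    lvl A (A.q * mb + fb - (A.q * mc + fc) + 1) = mb - mc + (if fc < fb then 1 else 0) := by
  have hq := A.q_pos'
  unfold lvl
  rw [add_sub_cancel_right]
  split_ifs with h
  · have : (A.q * mb + fb - (A.q * mc + fc)) / (A.q : ℤ) = mb - mc := by
      refine ((Int.ediv_emod_unique (r := fb - fc) hq).2 ⟨by ring, by omega, by omega⟩).1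
    rw [this]
  · have : (A.q * mb + fb - (A.q * mc + fc)) / (A.q : ℤ) = mb - mc - 1 := by
      refine ((Int.ediv_emod_unique (r := fb - fc + A.q) hq).2 ⟨by ring, by omega, by omega⟩).1
    rw [this]; ring

/-- horizontal walls -/
def HWZ (A : TAp) (i b k : ℤ) : Prop :=
  ∃ U S θ, IsC A i U S θ ∧ ((b = U + S ∧ k = S) ∨ (b = U + S - A.q * A.h ∧ k = S - A.q * A.h))

theorem HWZ.hw {A : TAp} {i b k : ℤ} (h : HWZ A i b k) : ∃ mb fb k',
    A.HW i mb fb k' ∧ b = A.q * mb + fb ∧ k = A.q * k' ∧ 0 < fb ∧ fb < A.q := by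
  obtain ⟨U, S, θ, hc, h⟩ := h
  obtain ⟨m, f, s, c, hU, hS, f0, f1⟩ := hc.cls
  rcases h with ⟨h1, h2⟩ | ⟨h1, h2⟩
  · exact ⟨m + s, f, s, ⟨m, s, c, Or.inl ⟨rfl, rfl⟩⟩, by rw [h1, hU, hS]; ring,
      by rw [h2, hS], f0, f1⟩
  · exact ⟨m + s - A.h, f, s - A.h, ⟨m, s, c, Or.inr ⟨rfl, rfl⟩⟩, by rw [h1, hU, hS]; ring,
      by rw [h2, hS]; ring, f0, f1⟩

/-- rule (E0) for vertical walls which satisfy `PL` (left walls), `PR` (right walls) -/
def RuleF (A : TAp) (PL PR : ℤ → Prop) : Prop :=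
  ∀ {j i mc fc g mb fb k r : ℤ},
    ((A.Cls j mc fc g ∧ PL j) ∨ (A.Cls j (mc - A.w) fc (g + A.w) ∧ PR j)) →
    A.HW i mb fb k → i ≠ j → r = mb - mc + (if fc < fb then 1 else 0) → ∀ Y : ℤ,
    (InA A.p Y (g - A.h) A.h ↔ ¬ InA A.p r (g - A.h) A.h) →
    (InA A.p Y (k - A.w) A.w ↔ ¬ InA A.p r (k - A.w) A.w) →
    A.Phi mc fc mb fb Y = A.Phi mc fc mb fb r

/-- vertical walls -/
def VWZ (A : TAp) (PL PR : ℤ → Prop) (j c g : ℤ) : Prop :=
  (∃ θ, IsC A j c g θ ∧ PL j) ∨ (∃ θ, IsC A j (c - A.q * A.w) (g + A.q * A.w) θ ∧ PR j)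

/-- the rule for free walls -/
theorem ruleZ {A : TAp} {PL PR : ℤ → Prop} (hE : RuleF A PL PR) {j i c g b k x : ℤ}
    (hj : VWZ A PL PR j c g) (hi : HWZ A i b k) (hij : i ≠ j)
    (h1 : InA (NN A) x (g - A.q * A.h) (A.q * A.h) ↔
      ¬ InA (NN A) (b - c + 1) (g - A.q * A.h) (A.q * A.h))
    (h2 : InA (NN A) x (k - A.q * A.w) (A.q * A.w) ↔
      ¬ InA (NN A) (b - c + 1) (k - A.q * A.w) (A.q * A.w)) :
    PhiZ A c b x = PhiZ A c b (b - c + 1) := by
  obtain ⟨mb, fb, k', hH, hb, hk, b0, b1⟩ := hi.hw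
  obtain ⟨mi, si, ci, -⟩ := id hH
  obtain ⟨mc, fc, g', hV, hc, hg, c0, c1, hne⟩ : ∃ mc fc g',
      ((A.Cls j mc fc g' ∧ PL j) ∨ (A.Cls j (mc - A.w) fc (g' + A.w) ∧ PR j)) ∧
      c = A.q * mc + fc ∧ g = A.q * g' ∧ 0 < fc ∧ fc < A.q ∧ fb ≠ fc := by
    rcases hj with ⟨θ, hc, hP⟩ | ⟨θ, hc, hP⟩
    · obtain ⟨m, f, s, cl, hU, hS, f0, f1⟩ := hc.cls
      exact ⟨m, f, s, Or.inl ⟨cl, hP⟩, hU, hS, f0, f1, Cls.f_ne ci cl hij⟩
    · obtain ⟨m, f, s, cl, hU, hS, f0, f1⟩ := hc.cls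
      refine ⟨m + A.w, f, s - A.w, Or.inr ⟨?_, hP⟩, by linear_combination hU,
        by linear_combination hS, f0, f1, Cls.f_ne ci cl hij⟩
      rw [add_sub_cancel_right, sub_add_cancel]; exact cl
  have hr := lvl_beta (mc := mc) (mb := mb) c0 c1 b0 b1 hne
  rw [← hb, ← hc] at hr
  have key := hE hV hH hij hr (lvl A x)
  have q1 : A.q * (g' - A.h) = g - A.q * A.h := by rw [hg]; ring
  have q2 : A.q * (k' - A.w) = k - A.q * A.w := by rw [hk]; ring
  rw [InA_lvl, InA_lvl, InA_lvl, InA_lvl, q1, q2, Phi_lvl, Phi_lvl, ← hb, ← hc] at key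
  exact key h1 h2

/-! ### merged lines -/

/-- charge of a level -/
def chiZ (A : TAp) (S S' x : ℤ) : ℤ :=
  (if InA (NN A) x (S - A.q * A.h) (A.q * A.h) then 1 else 0) -
    (if InA (NN A) x (S' - A.q * A.w - A.q * A.h) (A.q * A.h) then 1 else 0)

theorem chi_lvl (A : TAp) (s s' x : ℤ) :
    A.chi s s' (lvl A x) = chiZ A (A.q * s) (A.q * s') x := by
  unfold TAp.chi chiZ
  have t : ∀ (P Q : Prop) [Decidable P] [Decidable Q], (P ↔ Q) →
      (if P then (1 : ℤ) else 0) = if Q then 1 else 0 := by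
    intro P Q _ _ h; exact if_congr h rfl rfl
  have j1 := InA_lvl A x (s - A.h) A.h
  have j2 := InA_lvl A x (s' - A.w - A.h) A.h
  rw [show A.q * (s - A.h) = A.q * s - A.q * A.h by ring] at j1
  rw [show A.q * (s' - A.w - A.h) = A.q * s' - A.q * A.w - A.q * A.h by ring] at j2
  rw [t _ _ j1, t _ _ j2]

/-- a merged line: left wall of class `jl` at `c`, right wall of class `jr` -/
def MLZ (A : TAp) (jl jr c S S' : ℤ) : Prop :=
  (∃ θ, IsC A jl c S θ) ∧ ∃ θ, IsC A jr (c - A.q * A.w - A.sg) S' θ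

theorem MLZ.cls {A : TAp} {jl jr c S S' : ℤ} (h : MLZ A jl jr c S S') : ∃ m f s s',
    A.Cls jl m f s ∧ A.Cls jr (m - A.w) (f - A.sg) s' ∧ c = A.q * m + f ∧ S = A.q * s ∧
      S' = A.q * s' := by
  obtain ⟨⟨θ, h1⟩, θ', h2⟩ := h
  obtain ⟨m, f, s, cl, hU, hS, f0, f1⟩ := h1.cls
  have nd := h2.nd
  obtain ⟨⟨a1, ⟨s', hs', a2⟩, a3⟩, i0, i1⟩ := h2
  refine ⟨m, f, s, s', cl, ⟨i0, i1, ?_, ?_, ?_, a2⟩, hU, hS, hs'⟩
  · by_contra hc
    apply nd
    have : f - A.sg = 0 := by rcases A.hsg with h | h <;> omega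
    exact ⟨m - A.w, by rw [hU]; linear_combination this⟩
  · by_contra hc
    apply nd
    have : f - A.sg = A.q := by rcases A.hsg with h | h <;> omega
    exact ⟨m - A.w + 1, by rw [hU]; linear_combination this⟩
  · rwa [show A.q * (m - A.w) + (f - A.sg) = c - A.q * A.w - A.sg by rw [hU]; ring]

/-- the rule for merged lines and horizontal walls -/
theorem ruleM {A : TAp} (F : A.Fl) {jl jr i c S S' b k : ℤ} (hM : MLZ A jl jr c S S')
    (hi : HWZ A i b k) (hil : i ≠ jl) (hir : i ≠ jr) (x : ℤ) :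
    ((chiZ A S S' (b - c + 1) - chiZ A S S' x = 1 ∨ chiZ A S S' (b - c + 1) - chiZ A S S' x = -1) →
      (InA (NN A) x (k - A.q * A.w) (A.q * A.w) ↔
        ¬ InA (NN A) (b - c + 1) (k - A.q * A.w) (A.q * A.w)) →
      PhiZ A c b x = PhiZ A c b (b - c + 1)) ∧
    ((chiZ A S S' (b - c + 1) - chiZ A S S' x = 2 ∨ chiZ A S S' (b - c + 1) - chiZ A S S' x = -2) →
      (InA (NN A) x (k - A.q * A.w) (A.q * A.w) ↔
        InA (NN A) (b - c + 1) (k - A.q * A.w) (A.q * A.w))) := by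
  obtain ⟨mb, fb, k', hH, hb, hk, b0, b1⟩ := hi.hw
  obtain ⟨mi, si, ci, -⟩ := id hH
  obtain ⟨m, f, s, s', cl, cr, hc, hS, hS'⟩ := hM.cls
  have hr := lvl_beta (mc := m) (mb := mb) cl.2.2.1 cl.2.2.2.1 b0 b1 (Cls.f_ne ci cl hil)
  rw [← hb, ← hc] at hr
  have key := TAp.E0m F cl cr hH hil hir hr (lvl A x)
  have q2 : A.q * (k' - A.w) = k - A.q * A.w := by rw [hk]; ring
  rw [chi_lvl, chi_lvl, InA_lvl, InA_lvl, q2, Phi_lvl, Phi_lvl, ← hb, ← hc, ← hS, ← hS'] at key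
  exact ⟨key.1, fun h => (key.2 h).1⟩

/-- membership of a level in the arc of a vertical wall, at a general height -/
theorem lv_verw {C : Cfg} {j c J e b r : ℤ} (hV : Pool.Agent.H67.Flat.VW C j c J e)
    (h2 : C.q * (r - 1) ≤ b - c) (h3 : b - c < C.q * r) :
    lv C.p J C.h r = C.ver j b := by
  have hN := C.N_pos
  have hq0 : (0 : ℤ) < C.q := by exact_mod_cast C.hq
  have hp' : (0 : ℤ) < C.p := by exact_mod_cast C.p_pos
  have hNe : C.N = C.q * C.p := by unfold Cfg.N; ring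
  have hHe : C.H = C.q * C.h := rfl
  have key : C.N ∣ (b - (C.V j - C.H)) - ((b - c) + C.H - C.q * J) := by
    rcases hV with ⟨_, hc, hJ⟩ | ⟨_, hc, hJ⟩
    · rw [hJ]
      rwa [show b - (C.V j - C.H) - (b - c + C.H - C.q * j) = c - C.U j by
        unfold Cfg.V; ring]
    · rw [hJ]
      rwa [show b - (C.V j - C.H) - (b - c + C.H - C.q * (j - C.w)) = c - (C.U j + C.W) by
        unfold Cfg.V Cfg.W; ring]
  unfold Cfg.ver ph
  rw [emod_congr key]
  have x0 := Int.emod_nonneg (J - r) hp'.ne'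
  have x1 := Int.emod_lt_of_pos (J - r) hp'
  have xe := Int.mul_ediv_add_emod (J - r) C.p
  unfold lv
  set x := (J - r) % (C.p : ℤ)
  set z := (J - r) / (C.p : ℤ)
  set y := C.q * r - (b - c) with hy
  have y0 : 0 < y := by omega
  have y1 : y ≤ C.q := by nlinarith
  have e1 : b - c + C.H - C.q * J = (C.H - y - C.q * x) + C.N * (-z) := by
    rw [hNe]
    linear_combination (C.q : ℤ) * xe - hy
  rw [e1, Int.add_mul_emod_self_left]
  have qx0 : 0 ≤ C.q * x := by positivity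
  have qx1 : C.q * x + C.q ≤ C.N := by rw [hNe]; nlinarith
  have hHN := C.H_lt
  have hH0 := C.H_pos
  by_cases cx : x < C.h
  · have : C.q * x + C.q ≤ C.H := by rw [hHe]; nlinarith
    rw [if_pos cx, Int.emod_eq_of_lt (by omega) (by omega), if_pos]
    omega
  · have : C.H ≤ C.q * x := by rw [hHe]; nlinarith
    have : (C.H - y - C.q * x) % C.N = C.H - y - C.q * x + C.N := by
      refine ((Int.ediv_emod_unique (q := -1) hN).2 ⟨?_, by omega, by omega⟩).2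
      rw [mul_neg]; omega
    rw [if_neg cx, this, if_neg (by omega)]

/-- the charge of a merged line in terms of levels -/
theorem kap_eqw {A : TAp} {jl jr m f s s' v r : ℤ} (cl : A.Cls jl m f s)
    (cr : A.Cls jr (m - A.w) (f - A.sg) s')
    (h1 : A.q * (r - 1) ≤ v - (A.q * m + f) ∧ v - (A.q * m + f) < A.q * r)
    (h2 : A.q * (r - 1) ≤ v - (A.q * m + f - A.sg) ∧ v - (A.q * m + f - A.sg) < A.q * r) (Y : ℤ) :
    kap (A.cfg 0) s s' v Y = A.chi s s' r - A.chi s s' Y := by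
  have hh := A.hh
  have hh2 := A.h2
  have hh0 : (0 : ℤ) < A.h := by omega
  have hhp : (A.h : ℤ) ≤ A.p := by omega
  have hl : Pool.Agent.H67.Flat.VW (A.cfg 0) s (A.q * m + f) s 1 := by
    refine Or.inl ⟨rfl, ?_, rfl⟩
    rw [← dvd_neg, neg_sub]; exact cl.U0
  have hr : Pool.Agent.H67.Flat.VW (A.cfg 0) s' (A.q * m + f - A.sg) (s' - A.w) (-1) := by
    refine Or.inr ⟨rfl, ?_, rfl⟩
    rw [← dvd_neg]
    have hW : (A.cfg 0).W = A.q * A.w := rfl
    rw [hW]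
    have := cr.U0
    rwa [show -(A.q * m + f - A.sg - ((A.cfg 0).U s' + A.q * A.w))
      = (A.cfg 0).U s' - (A.q * (m - A.w) + (f - A.sg)) by ring]
  have e1 := lv_verw hl h1.1 h1.2
  have e2 := lv_verw hr h2.1 h2.2
  change lv A.p s A.h r = _ at e1
  change lv A.p (s' - A.w) A.h r = _ at e2
  unfold kap TAp.chi
  rw [InA_if hh0 hhp, InA_if hh0 hhp, InA_if hh0 hhp, InA_if hh0 hhp, e1, e2]
  change _ - lv A.p s A.h Y - (_ - lv A.p (s' - A.w) A.h Y) = _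
  ring

/-- the rule for merged lines with charge `± 2` at a general height -/
theorem ruleV {A : TAp} (F : A.Fl) {jl jr c S S' v x y : ℤ} (hM : MLZ A jl jr c S S')
    (h1 : A.q * (lvl A x - 1) ≤ v - c ∧ v - c < A.q * lvl A x)
    (h2 : A.q * (lvl A x - 1) ≤ v - c + A.sg ∧ v - c + A.sg < A.q * lvl A x)
    (hk : chiZ A S S' x - chiZ A S S' y = 2 ∨ chiZ A S S' x - chiZ A S S' y = -2) :
    PhiZ A c v y = PhiZ A c v x := by
  obtain ⟨m, f, s, s', cl, cr, hc, hS, hS'⟩ := hM.cls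
  have M := merged_ML F cl cr
  obtain ⟨p1, p2⟩ := merged_ph cl cr
  have e1 := Int.mul_ediv_add_emod v A.q
  rw [hc] at h1 h2
  have h2' : A.q * (lvl A x - 1) ≤ v - (A.q * m + f - A.sg) ∧
      v - (A.q * m + f - A.sg) < A.q * lvl A x := by
    rwa [show v - (A.q * m + f - A.sg) = v - (A.q * m + f) + A.sg by ring]
  have kp := kap_eqw cl cr h1 h2' (lvl A y)
  have dg : ∃ t, (A.cfg 0).N ∣ v - (A.q * m + f - A.k0 + 2) - t ∧ A.q * (lvl A x - 1) ≤ t ∧
      t ≤ A.q * lvl A x := by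
    refine ⟨v - (A.q * m + f - A.k0 + 2), by simp, ?_⟩
    rcases A.k0_cases with ⟨h3, h3'⟩ | ⟨h3, h3'⟩ <;> rw [h3'] <;> rw [h3] at h2 <;>
      constructor <;> omega
  have main2 := E0V (C := A.cfg 0) (d := A.D) A.U00 A.D_nonneg A.D_W A.D_H (A.cfg_gen 0) A.G1 M
    (v := v) dg (Y := lvl A y) (by
      rw [kp, chi_lvl, chi_lvl, ← hS, ← hS']; exact hk)
  rw [← e1, dict A p1 p2, dict A p1 p2, Phi_lvl, Phi_lvl, e1, ← hc] at main2
  exact main2

end Pool.Agent.H78.RT
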