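import Pool.Agent.H78.RT.Base

/-!
# A checker for decision trees with ties, in scaled form

Linear forms are packed into integers as in `Pool.Agent.H81.AP.Chk`.  All the conditions are
inequalities between integer forms of the scaled quantities, no rounding is necessary.
-/

namespace Pool.Agent.H78.RT

open Pool.Agent.H81.AP (LF dot add smul dot_nil dot_nil' dot_cons dot_add dot_smul pack pack_add
  pack_smul Bd dot_eq_zero Rep nn nn_le dropK mem_dropK fp fw fh fD zp land63 emod_le_self'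
  b2i get1 get1_mem bdB bdB_sound bdL bdL_sound packL packL_mem bd_unit AllNn AllNe)
open Pool.Agent.H78.Tie
open Pool.Agent.H98.Flat (InA)

/-- combination of the context with the coefficients encoded in `n` -/
noncomputable def comb (k : Nat) : List Int → Nat → Int :=
  @Nat.rec (fun _ => List Int → Nat → Int) (fun _ _ => 0)
    (fun _ ih G n => @Bool.rec (fun _ => Int)
      (@List.rec Int (fun _ => Int) 0
        (fun g G' _ => Int.add (Int.mul (Int.ofNat (Nat.land n 255)) g)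
          (ih G' (Nat.shiftRight n 16)))
        (dropK (Nat.land (Nat.shiftRight n 8) 255) G)) 0 (Nat.beq n 0)) k

theorem comb_succ (k : Nat) (G : List Int) (n : Nat) : comb (k + 1) G n =
    @Bool.rec (fun _ => Int)
      (@List.rec Int (fun _ => Int) 0
        (fun g G' _ => Int.add (Int.mul (Int.ofNat (Nat.land n 255)) g)
          (comb k G' (Nat.shiftRight n 16)))
        (dropK (Nat.land (Nat.shiftRight n 8) 255) G)) 0 (Nat.beq n 0) := rfl

/-- all forms of the context are nonnegative -/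
def Nn (v : List Int) (G : List Int) : Prop := ∀ g ∈ G, ∃ X, 0 ≤ X ∧ Rep v 1024 g X

theorem land255 (n : Nat) : (0 : Int) ≤ Int.ofNat (Nat.land n 255) ∧
    Int.ofNat (Nat.land n 255) ≤ 255 := by
  have h : Nat.land n 255 ≤ 255 := Nat.and_le_right
  exact ⟨Int.natCast_nonneg _, Int.ofNat_le.2 h⟩

theorem comb_nn (v : List Int) : ∀ (k : Nat) (G : List Int) (n : Nat), Nn v G →
    ∃ S, 0 ≤ S ∧ Rep v (k * 261120) (comb k G n) S
  | 0, G, n, _ => ⟨0, le_refl _, by
      have := Rep.cst (v := v) (c := 0) (C := 0) (by omega)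
      rw [Nat.cast_zero, zero_mul]
      exact this⟩
  | k + 1, G, n, h => by
    rw [comb_succ]
    have z : ∃ S, 0 ≤ S ∧ Rep v (((k + 1 : Nat) : Int) * 261120) 0 S :=
      ⟨0, le_refl _, (Rep.cst (v := v) (c := 0) (C := 0) (by omega)).mono (by positivity)⟩
    cases hn : Nat.beq n 0
    · rcases hG : dropK (Nat.land (Nat.shiftRight n 8) 255) G with _ | ⟨g, G'⟩
      · exact z
      · change ∃ S, 0 ≤ S ∧ Rep v _ (Int.ofNat (Nat.land n 255) * g +
          comb k G' (Nat.shiftRight n 16)) S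
        have hg : g ∈ G := mem_dropK _ _ (hG ▸ List.mem_cons_self)
        have hG' : Nn v G' := by
          intro g' hg'
          exact h g' (mem_dropK _ _ (hG ▸ List.mem_cons_of_mem _ hg'))
        obtain ⟨X, X0, hX⟩ := h g hg
        obtain ⟨S, S0, hS⟩ := comb_nn v k G' (Nat.shiftRight n 16) hG'
        have h3 := land255 n
        generalize Int.ofNat (Nat.land n 255) = c at *
        refine ⟨c * X + S, by have := h3.1; positivity, ?_⟩
        refine ((hX.smul (c := c) (C := 255) (by omega)).add hS).mono ?_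
        push_cast; omega
    · exact z

/-- `imp G n f`: the certificate `n` shows that `f ≥ 0` follows from the context -/
noncomputable def imp (G : List Int) (n : Nat) (f : Int) : Bool :=
  (fun K => and (nn (Int.add (Int.add K (Int.ofNat (Nat.land n 255))) (-1)))
    (nn (Int.add 65536 (Int.neg K))))
  (Int.add (Int.mul (Int.ofNat (Nat.land n 255)) f) (Int.neg (comb 16 G (Nat.shiftRight n 8))))

theorem imp_sound {v : List Int} {G : List Int} {n : Nat} {f X : Int} (hG : Nn v G)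
    (hf : Rep v 4096 f X) (h : imp G n f = true) : 0 ≤ X := by
  unfold imp at h
  obtain ⟨S, S0, hS⟩ := comb_nn v 16 G (Nat.shiftRight n 8) hG
  have h3 := land255 n
  generalize comb 16 G (Nat.shiftRight n 8) = s at *
  generalize Int.ofNat (Nat.land n 255) = D at *
  simp only [Bool.and_eq_true] at h
  have h1 : 0 ≤ D * f + -s + D + (-1) := nn_le h.1
  have h2 : 0 ≤ 65536 + -(D * f + -s) := nn_le h.2
  have hR := ((hf.smul (c := D) (C := 255) (by omega)).sub hS).sub
    (Rep.cst (v := v) (c := D * f - s) (C := 65536) (by omega))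
  have := hR.zero (by norm_num) (by ring)
  by_contra hX
  have : X + 1 ≤ 0 := by omega
  have : D * X + D ≤ 0 := by nlinarith
  omega

/-- check that `x` lies in the arc `(lo, lo + len]` (`b = true`) or not (`b = false`) -/
noncomputable def mem (G : List Int) (x lo len : Int) (b : Bool) (z c1 c2 : Nat) : Bool :=
  (fun t => @Bool.rec (fun _ => Bool)
    (and (imp G c1 (Int.sub t len)) (imp G c2 (Int.sub (Int.sub fp t) 1)))
    (and (imp G c1 t) (imp G c2 (Int.sub (Int.sub len t) 1))) b)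
  (Int.sub (Int.sub (Int.sub x lo) 1) (zp z))

/-- the environment starts with `N, W, H, D` -/
def Env (A : TAp) (v : List Int) : Prop :=
  ∃ r, v = NN A :: A.q * A.w :: A.q * A.h :: A.D :: r

section
variable {A : TAp} {v : List Int}

theorem Env.p (h : Env A v) : Rep v 1 fp (NN A) := by
  obtain ⟨r, rfl⟩ := h
  refine ⟨by norm_num, [0, 1], by simp [pack, fp], bd_unit (by simp), ?_⟩
  simp only [dot_cons, dot_nil]; ring
theorem Env.w (h : Env A v) : Rep v 1 fw (A.q * A.w) := by
  obtain ⟨r, rfl⟩ := h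
  refine ⟨by norm_num, [0, 0, 1], by simp [pack, fw], bd_unit (by simp), ?_⟩
  simp only [dot_cons, dot_nil]; ring
theorem Env.h (h : Env A v) : Rep v 1 fh (A.q * A.h) := by
  obtain ⟨r, rfl⟩ := h
  refine ⟨by norm_num, [0, 0, 0, 1], by simp [pack, fh], bd_unit (by simp), ?_⟩
  simp only [dot_cons, dot_nil]; ring
theorem Env.D (h : Env A v) : Rep v 1 fD A.D := by
  obtain ⟨r, rfl⟩ := h
  refine ⟨by norm_num, [0, 0, 0, 0, 1], by simp [pack, fD], bd_unit (by simp), ?_⟩
  simp only [dot_cons, dot_nil]; ring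
theorem Env.z (h : Env A v) (z : Nat) : ∃ zz : Int, Rep v 64 (zp z) (zz * NN A) := by
  have h1 := h.p.smul (c := Int.subNatNat (Nat.land z 63) 8) (C := 64) (by
    have h3 := land63 z
    rw [Int.subNatNat_eq_coe]
    have e : Int.ofNat (Nat.land z 63) = ((Nat.land z 63 : Nat) : Int) := rfl
    rw [e] at h3
    constructor <;> push_cast <;> omega)
  exact ⟨_, h1⟩

theorem mem_sound {G : List Int} (hG : Nn v G)
    (hv : Env A v) {x lo len X Lo Q : Int} {b : Bool} {z c1 c2 : Nat}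
    (hx : Rep v 2048 x X) (hlo : Rep v 1024 lo Lo) (hlen : Rep v 1 len Q)
    (hl : 0 ≤ Q) (h : mem G x lo len b z c1 c2 = true) :
    InA (NN A) X Lo Q ↔ b = true := by
  obtain ⟨zz, hz⟩ := hv.z z
  have hp := hv.p
  have hp0 : (0 : Int) < NN A := NN_pos A
  have ht := ((hx.sub hlo).sub Rep.one).sub hz
  unfold mem at h
  unfold InA
  cases b
  · change and (imp G c1 ((x - lo - 1 - zp z) - len))
      (imp G c2 ((fp - (x - lo - 1 - zp z)) - 1)) = true at h
    simp only [Bool.and_eq_true] at h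
    have h1 := imp_sound hG ((ht.sub hlen).mono (by norm_num)) h.1
    have h2 := imp_sound hG (((hp.sub ht).sub Rep.one).mono (by norm_num)) h.2
    rw [show X - Lo - 1 = (X - Lo - 1 - zz * NN A) + NN A * zz by ring,
      Int.add_mul_emod_self_left, Int.emod_eq_of_lt (by omega) (by omega)]
    constructor
    · intro h; omega
    · intro h; exact absurd h (by decide)
  · change and (imp G c1 (x - lo - 1 - zp z))
      (imp G c2 ((len - (x - lo - 1 - zp z)) - 1)) = true at h
    simp only [Bool.and_eq_true] at h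
    have h1 := imp_sound hG (ht.mono (by norm_num)) h.1
    have h2 := imp_sound hG (((hlen.sub ht).sub Rep.one).mono (by norm_num)) h.2
    rw [show X - Lo - 1 = (X - Lo - 1 - zz * NN A) + NN A * zz by ring,
      Int.add_mul_emod_self_left]
    constructor
    · intro _; rfl
    · intro _
      have := emod_le_self' h1 hp0
      omega

/-- check the position flag of `y` -/
noncomputable def pos (G : List Int) (y : Int) (b : Bool) (z c1 c2 : Nat) : Bool :=
  mem G (Int.add y 1) 0 fD b z c1 c2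

theorem pos_sound {G : List Int} (hG : Nn v G)
    (hv : Env A v) {y Y : Int} {b : Bool} {z c1 c2 : Nat}
    (hy : Rep v 2000 y Y) (h : pos G y b z c1 c2 = true) : Pos A Y ↔ b = true := by
  have h1 := mem_sound hG hv ((hy.add Rep.one).mono (by norm_num) : Rep v 2048 (y + 1) (Y + 1))
    ((Rep.cst (c := 0) (C := 0) (by omega)).mono (by norm_num)) hv.D (D_pos A).le h
  rw [← h1]
  unfold Pos InA
  rw [show Y + 1 - 0 - 1 = Y by ring]

end

/-- certificate for a membership -/
structure M where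
  b : Bool
  z : Nat
  c1 : Nat
  c2 : Nat

/-- certificate for one of the four terms of `Φ(Y) - Φ(r)` -/
inductive K where
  | out (z c1 c2 : Nat)
  | same (my mr : M)
  | diff (z c1 c2 : Nat) (my mr : M)

noncomputable def M.ok (m : M) (G : List Int) (x lo len : Int) : Bool :=
  @M.rec (fun _ => Bool) (fun b z c1 c2 => mem G x lo len b z c1 c2) m

noncomputable def K.val (k : K) : Int :=
  @K.rec (fun _ => Int) (fun _ _ _ => 0) (fun _ _ => 0)
    (fun _ _ _ my mr => Int.sub (b2i my.b) (b2i mr.b)) k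

noncomputable def K.ok (G : List Int) (c lo len y r : Int) (k : K) : Bool :=
  @K.rec (fun _ => Bool) (fun z c1 c2 => pos G c false z c1 c2)
    (fun my mr => and (@Bool.rec (fun _ => Bool) (not mr.b) mr.b my.b)
      (and (my.ok G y lo len) (mr.ok G r lo len)))
    (fun z c1 c2 my mr => and (pos G c true z c1 c2)
      (and (my.ok G y lo len) (mr.ok G r lo len))) k

theorem K.sound {A : TAp} {v : List Int} {G : List Int} (hG : Nn v G) (hv : Env A v)
    {c lo len y r X Lo Le Yv Rv : Int} (hc : Rep v 2000 c X) (hlo : Rep v 1024 lo Lo)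
    (hlen : Rep v 1 len Le) (hY : Rep v 2048 y Yv) (hr : Rep v 2048 r Rv)
    (hl : 0 ≤ Le) {k : K} (h : k.ok G c lo len y r = true) :
    (if Pos A X ∧ InA (NN A) Yv Lo Le then (1 : Int) else 0)
    - (if Pos A X ∧ InA (NN A) Rv Lo Le then (1 : Int) else 0) = k.val := by
  cases k with
  | out z c1 c2 =>
    change pos G c false z c1 c2 = true at h
    have h1 := pos_sound hG hv hc h
    have h2 : ¬ Pos A X := fun h' => absurd (h1.1 h') (by decide)
    rw [if_neg (fun h' => h2 h'.1), if_neg (fun h' => h2 h'.1)]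
    rfl
  | same my mr =>
    change and (@Bool.rec (fun _ => Bool) (not mr.b) mr.b my.b)
      (and (mem G y lo len my.b my.z my.c1 my.c2) (mem G r lo len mr.b mr.z mr.c1 mr.c2)) = true
      at h
    simp only [Bool.and_eq_true] at h
    have h1 := mem_sound hG hv hY hlo hlen hl h.2.1
    have h2 := mem_sound hG hv hr hlo hlen hl h.2.2
    have h3 : my.b = mr.b := by
      have := h.1
      revert this
      cases my.b <;> cases mr.b <;> decide
    rw [h3] at h1
    have h4 := h1.trans h2.symm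
    change _ = (0 : Int)
    by_cases c1 : Pos A X <;> by_cases c2 : InA (NN A) Yv Lo Le
    · rw [if_pos ⟨c1, c2⟩, if_pos ⟨c1, h4.1 c2⟩]; rfl
    · rw [if_neg (fun h' => c2 h'.2), if_neg (fun h' => c2 (h4.2 h'.2))]; rfl
    · rw [if_neg (fun h' => c1 h'.1), if_neg (fun h' => c1 h'.1)]; rfl
    · rw [if_neg (fun h' => c1 h'.1), if_neg (fun h' => c1 h'.1)]; rfl
  | diff z c1 c2 my mr =>
    change and (pos G c true z c1 c2)
      (and (mem G y lo len my.b my.z my.c1 my.c2) (mem G r lo len mr.b mr.z mr.c1 mr.c2)) = true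
      at h
    simp only [Bool.and_eq_true] at h
    have h0 := (pos_sound hG hv hc h.1).2 rfl
    have h1 := mem_sound hG hv hY hlo hlen hl h.2.1
    have h2 := mem_sound hG hv hr hlo hlen hl h.2.2
    change _ = b2i my.b - (b2i mr.b)
    have t : ∀ b : Bool, ∀ (P : Prop) [Decidable P], (P ↔ b = true) →
        (if Pos A X ∧ P then (1 : Int) else 0) = b2i b := by
      intro b P _ hP
      cases b
      · rw [if_neg (fun h' => absurd (hP.1 h'.2) (by decide))]; rfl
      · rw [if_pos ⟨h0, hP.2 rfl⟩]; rfl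
    rw [t _ _ h1, t _ _ h2]

/-! ### records -/

/-- packed record -/
structure C3 where
  U : Int
  S : Int
  T : Int

def RecOk (A : TAp) (v : List Int) (M : Int) (X : C3) (i : Int) : Prop :=
  ∃ U S θ, Rec A i U S θ ∧ Rep v M X.U U ∧ Rep v M X.S S ∧ Rep v M X.T θ

/-- combination of the base records, digits in base `32` with offset `16` -/
noncomputable def rc (k : Nat) : List C3 → Nat → C3 :=
  @Nat.rec (fun _ => List C3 → Nat → C3) (fun _ _ => ⟨0, 0, 0⟩)
    (fun _ ih B n => @List.rec C3 (fun _ => C3) ⟨0, 0, 0⟩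
      (fun b B' _ => (fun c r => ⟨Int.add (Int.mul c b.U) r.U, Int.add (Int.mul c b.S) r.S,
        Int.add (Int.mul c b.T) r.T⟩)
        (Int.subNatNat (Nat.land n 31) 16) (ih B' (Nat.shiftRight n 5))) B) k

theorem land31 (n : Nat) : (-16 : Int) ≤ Int.subNatNat (Nat.land n 31) 16 ∧
    Int.subNatNat (Nat.land n 31) 16 ≤ 16 := by
  have h : Nat.land n 31 ≤ 31 := Nat.and_le_right
  rw [Int.subNatNat_eq_coe]
  constructor <;> push_cast <;> omega

theorem rc_ok {A : TAp} {v : List Int} : ∀ (k : Nat) (B : List C3) (n : Nat),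
    (∀ b ∈ B, ∃ i, RecOk A v 4 b i) → ∃ i, RecOk A v (64 * k) (rc k B n) i
  | 0, B, n, _ => ⟨0, 0, 0, 0, Rec.zero A,
      (Rep.cst (c := 0) (C := 0) (by omega)).mono (by simp),
      (Rep.cst (c := 0) (C := 0) (by omega)).mono (by simp),
      (Rep.cst (c := 0) (C := 0) (by omega)).mono (by simp)⟩
  | k + 1, [], n, _ => ⟨0, 0, 0, 0, Rec.zero A,
      (Rep.cst (c := 0) (C := 0) (by omega)).mono (by positivity),
      (Rep.cst (c := 0) (C := 0) (by omega)).mono (by positivity),
      (Rep.cst (c := 0) (C := 0) (by omega)).mono (by positivity)⟩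
  | k + 1, b :: B, n, h => by
    obtain ⟨i, U, S, θ, hr, r1, r2, r3⟩ := h b List.mem_cons_self
    obtain ⟨i', U', S', θ', hr', r1', r2', r3'⟩ :=
      rc_ok k B (Nat.shiftRight n 5) (fun b hb => h b (List.mem_cons_of_mem _ hb))
    have hc := land31 n
    refine ⟨_, _, _, _, hr.lin hr' (Int.subNatNat (Nat.land n 31) 16), ?_, ?_, ?_⟩
    · exact ((r1.smul hc).add r1').mono (by push_cast; omega)
    · exact ((r2.smul hc).add r2').mono (by push_cast; omega)
    · exact ((r3.smul hc).add r3').mono (by push_cast; omega)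

/-- the record `X` represents class `i` -/
def ClOk (A : TAp) (v : List Int) (X : C3) (i : Int) : Prop :=
  ∃ U S θ, IsC A i U S θ ∧ Rep v 384 X.U U ∧ Rep v 384 X.S S ∧ Rep v 384 X.T θ

noncomputable def clk (G : List Int) (X : C3) (c1 c2 : Nat) : Bool :=
  and (imp G c1 (Int.sub X.T 1)) (imp G c2 (Int.sub (Int.sub fD X.T) 1))

theorem clk_sound {A : TAp} {v : List Int} {G : List Int} (hG : Nn v G) (hv : Env A v)
    {X : C3} {i : Int} (hX : RecOk A v 384 X i) {c1 c2 : Nat} (h : clk G X c1 c2 = true) :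
    ClOk A v X i := by
  obtain ⟨U, S, θ, hr, r1, r2, r3⟩ := hX
  unfold clk at h
  simp only [Bool.and_eq_true] at h
  have e1 := imp_sound hG ((r3.sub Rep.one).mono (by norm_num)) h.1
  have e2 := imp_sound hG (((hv.D.sub r3).sub Rep.one).mono (by norm_num)) h.2
  exact ⟨U, S, θ, hr.isC (by omega) (by omega), r1, r2, r3⟩

/-- check that `x < y` (`b = true`) or `y < x` -/
noncomputable def nek (G : List Int) (x y : Int) (b : Bool) (c : Nat) : Bool :=
  @Bool.rec (fun _ => Bool) (imp G c (Int.sub (Int.sub x y) 1))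
    (imp G c (Int.sub (Int.sub y x) 1)) b

theorem nek_sound {v : List Int} {G : List Int} (hG : Nn v G) {x y X Y : Int}
    (hx : Rep v 384 x X) (hy : Rep v 384 y Y) {b : Bool} {c : Nat}
    (h : nek G x y b c = true) : X ≠ Y := by
  unfold nek at h
  cases b
  · have := imp_sound hG (((hx.sub hy).sub Rep.one).mono (by norm_num)) h
    omega
  · have := imp_sound hG (((hy.sub hx).sub Rep.one).mono (by norm_num)) h
    omega

theorem Rec.inj {A : TAp} {i U S θ i' U' S' θ' : ℤ} (h : Rec A i U S θ)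
    (h' : Rec A i' U' S' θ') (hne : θ ≠ θ') : i ≠ i' := by
  rintro rfl
  apply hne
  have h1 := h.2.2
  rw [h'.2.2] at h1
  exact (mul_left_cancel₀ A.p_pos'.ne' h1).symm

/-- an optional bound for the index: `θ` of the bound -/
def BOk (A : TAp) (v : List Int) : Option Int → Option Int → Prop
  | none, none => True
  | some X, some i => ∃ θ, A.D * i = A.p * θ ∧ Rep v 384 X θ
  | _, _ => False

structure BD where
  lo : Option Int
  hi : Option Int

noncomputable def BD.ok (b : BD) (G : List Int) (X : Int) (c1 c2 : Nat) : Bool :=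
  and (@Option.rec Int (fun _ => Bool) true
      (fun l => imp G c1 (Int.sub (Int.sub X l) 1)) b.lo)
    (@Option.rec Int (fun _ => Bool) true
      (fun h => imp G c2 (Int.sub (Int.sub h X) 1)) b.hi)

theorem lt_of_th {A : TAp} {i θ i' θ' : ℤ} (h : A.D * i = A.p * θ) (h' : A.D * i' = A.p * θ')
    (hl : θ < θ') : i < i' := by
  have hD := D_pos A
  have hp := A.p_pos'
  have : A.D * i < A.D * i' := by
    rw [h, h']; exact mul_lt_mul_of_pos_left hl hp
  exact lt_of_mul_lt_mul_left this hD.le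

theorem BD.sound {A : TAp} {v : List Int} {G : List Int} (hG : Nn v G) {b : BD}
    {lo hi : Option Int} (hl : BOk A v b.lo lo) (hh : BOk A v b.hi hi) {X : Int}
    {i θ : Int} (hi0 : A.D * i = A.p * θ) (xn : Rep v 384 X θ) {c1 c2 : Nat}
    (h : b.ok G X c1 c2 = true) : (∀ l ∈ lo, l < i) ∧ (∀ u ∈ hi, i < u) := by
  unfold BD.ok at h
  simp only [Bool.and_eq_true] at h
  constructor
  · intro l hlo
    rcases hb : b.lo with _ | L
    · rw [hb] at hl
      rcases lo with _ | l'
      · exact absurd hlo (by simp)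
      · exact hl.elim
    · rw [hb] at hl h
      rcases lo with _ | l'
      · exact hl.elim
      · obtain ⟨θ', h1, h2⟩ := hl
        rw [Option.mem_some_iff] at hlo
        subst hlo
        have h3 : imp G c1 ((X - L) - 1) = true := h.1
        have := imp_sound hG (((xn.sub h2).sub Rep.one).mono (by norm_num)) h3
        exact lt_of_th h1 hi0 (by omega)
  · intro u hu
    rcases hb : b.hi with _ | H
    · rw [hb] at hh
      rcases hi with _ | l'
      · exact absurd hu (by simp)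
      · exact hh.elim
    · rw [hb] at hh h
      rcases hi with _ | l'
      · exact hh.elim
      · obtain ⟨θ', h1, h2⟩ := hh
        rw [Option.mem_some_iff] at hu
        subst hu
        have h3 : imp G c2 ((H - X) - 1) = true := h.2
        have := imp_sound hG (((h2.sub xn).sub Rep.one).mono (by norm_num)) h3
        exact lt_of_th hi0 h1 (by omega)

/-! ### leaves -/

noncomputable def bx (a b : Bool) : Bool := @Bool.rec (fun _ => Bool) b (not b) a

theorem bx_iff {a b : Bool} (h : bx a b = true) : (b = true ↔ ¬ a = true) := by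
  revert h; cases a <;> cases b <;> decide

/-- check of `Φ(Y) ≠ Φ(r)` -/
noncomputable def phk (G : List Int) (c b r y : Int) (k0 k1 k2 k3 : K) : Bool :=
  and (and (k0.ok G c (Int.neg fh) fh y r)
      (and (k1.ok G (Int.sub c fw) (Int.sub (Int.neg fw) fh) fh y r)
      (and (k2.ok G b (Int.neg fw) fw y r)
        (k3.ok G (Int.add b fh) (Int.sub (Int.neg fw) fh) fw y r))))
    (not (Int.beq' (Int.sub (Int.add k1.val k2.val) (Int.add k0.val k3.val)) 0))

theorem qw0 (A : TAp) : (0 : ℤ) ≤ A.q * A.w := mul_nonneg A.q_pos'.le (by positivity)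
theorem qh0 (A : TAp) : (0 : ℤ) ≤ A.q * A.h := mul_nonneg A.q_pos'.le (by positivity)

theorem phk_sound {A : TAp} {v : List Int} {G : List Int} (hG : Nn v G)
    (hv : Env A v) {c b r y C B R Y : Int} (hc : Rep v 1900 c C) (hb : Rep v 1900 b B)
    (hr : Rep v 2048 r R) (hy : Rep v 2048 y Y) {k0 k1 k2 k3 : K}
    (h : phk G c b r y k0 k1 k2 k3 = true) : PhiZ A C B Y ≠ PhiZ A C B R := by
  unfold phk at h
  simp only [Bool.and_eq_true] at h
  obtain ⟨⟨a7, a8, a9, a10⟩, a11⟩ := h
  have hw := hv.w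
  have hh := hv.h
  have nh : Rep v 1024 (Int.neg fh) (-(A.q * A.h)) := hh.neg.mono (by norm_num)
  have nw : Rep v 1024 (Int.neg fw) (-(A.q * A.w)) := hw.neg.mono (by norm_num)
  have nwh : Rep v 1024 (Int.sub (Int.neg fw) fh) (-(A.q * A.w) - A.q * A.h) :=
    (hw.neg.sub hh).mono (by norm_num)
  have c0 := K.sound hG hv (hc.mono (by norm_num)) nh hh hy hr (qh0 A) a7
  have c1 := K.sound hG hv ((hc.sub hw).mono (by norm_num)) nwh hh hy hr (qh0 A) a8
  have c2 := K.sound hG hv (hb.mono (by norm_num)) nw hw hy hr (qw0 A) a9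
  have c3 := K.sound hG hv ((hb.add hh).mono (by norm_num)) nwh hw hy hr (qw0 A) a10
  intro main
  unfold PhiZ at main
  have fin : (k1.val + k2.val) - (k0.val + k3.val) = 0 := by
    rw [← c0, ← c1, ← c2, ← c3]
    linarith
  have fin' : Int.sub (Int.add k1.val k2.val) (Int.add k0.val k3.val) = 0 := fin
  rw [fin'] at a11
  exact absurd a11 (by decide)

/-- the base forms of levels -/
noncomputable def base (g k e : Int) (n : Nat) : Int :=
  @Nat.rec (fun _ => Int) g (fun n _ =>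
    @Nat.rec (fun _ => Int) (Int.sub g fh) (fun n _ =>
    @Nat.rec (fun _ => Int) k (fun n _ =>
    @Nat.rec (fun _ => Int) (Int.sub k fw) (fun n _ =>
    @Nat.rec (fun _ => Int) 0 (fun n _ =>
    @Nat.rec (fun _ => Int) (Int.neg fh) (fun n _ =>
    @Nat.rec (fun _ => Int) (Int.neg fw) (fun n _ =>
    @Nat.rec (fun _ => Int) (Int.sub (Int.neg fw) fh) (fun n _ =>
    @Nat.rec (fun _ => Int) e (fun _ _ => Int.sub e fh) n) n) n) n) n) n) n) n) n

/-- the scaled level `E` (`o = false`) or `E + 1` (`o = true`) -/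
noncomputable def lev (g k e : Int) (n : Nat) (o : Bool) : Int :=
  Int.add (base g k e n) (b2i o)

/-- the value is a multiple of `q` -/
def Mq (A : TAp) (X : Int) : Prop := ∃ s, X = A.q * s

theorem base_rep {A : TAp} {v : List Int} (hv : Env A v) {g k e G K E : Int}
    (hg : Rep v 400 g G) (hk : Rep v 400 k K) (he : Rep v 400 e E) (g' : Mq A G) (k' : Mq A K)
    (e' : Mq A E) (m : Nat) : ∃ Y, Rep v 402 (base g k e m) Y ∧ Mq A Y := by
  have hw := hv.w
  have hh := hv.h
  obtain ⟨gs, gg⟩ := g'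
  obtain ⟨ks, kk⟩ := k'
  obtain ⟨es, ee⟩ := e'
  match m with
  | 0 => exact ⟨_, hg.mono (by norm_num), gs, gg⟩
  | 1 => exact ⟨_, (hg.sub hh).mono (by norm_num), gs - A.h, by rw [gg]; ring⟩
  | 2 => exact ⟨_, hk.mono (by norm_num), ks, kk⟩
  | 3 => exact ⟨_, (hk.sub hw).mono (by norm_num), ks - A.w, by rw [kk]; ring⟩
  | 4 => exact ⟨_, (Rep.cst (c := 0) (C := 0) (by omega)).mono (by norm_num), 0, by ring⟩
  | 5 => exact ⟨_, hh.neg.mono (by norm_num), -A.h, by ring⟩
  | 6 => exact ⟨_, hw.neg.mono (by norm_num), -A.w, by ring⟩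
  | 7 => exact ⟨_, (hw.neg.sub hh).mono (by norm_num), -A.w - A.h, by ring⟩
  | 8 => exact ⟨_, he.mono (by norm_num), es, ee⟩
  | m + 9 => exact ⟨_, (he.sub hh).mono (by norm_num), es - A.h, by rw [ee]; ring⟩

theorem b2i_rep {v : List Int} (o : Bool) : Rep v 1 (b2i o) (b2i o) := by
  apply Rep.cst
  cases o
  · change (-1 : Int) ≤ 0 ∧ (0 : Int) ≤ 1; omega
  · change (-1 : Int) ≤ 1 ∧ (1 : Int) ≤ 1; omega

theorem lev_rep {A : TAp} {v : List Int} (hv : Env A v) {g k e G K E : Int}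
    (hg : Rep v 400 g G) (hk : Rep v 400 k K) (he : Rep v 400 e E) (g' : Mq A G) (k' : Mq A K)
    (e' : Mq A E) (n : Nat) (o : Bool) : ∃ Y, Rep v 404 (lev g k e n o) Y := by
  obtain ⟨Y, hY, -⟩ := base_rep hv hg hk he g' k' e' n
  exact ⟨_, (hY.add (b2i_rep o)).mono (by norm_num)⟩

noncomputable def leafF2 (G : List Int) (c g b k r y : Int)
    (m1 m2 m3 m4 : M) (k0 k1 k2 k3 : K) : Bool :=
  and (and (bx m1.b m2.b)
      (and (m1.ok G r (Int.sub g fh) fh) (m2.ok G y (Int.sub g fh) fh)))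
  (and (and (bx m3.b m4.b)
      (and (m3.ok G r (Int.sub k fw) fw) (m4.ok G y (Int.sub k fw) fw)))
    (phk G c b r y k0 k1 k2 k3))

theorem leafF2_sound {A : TAp} {PL PR : ℤ → Prop} (hE : RuleF A PL PR) {v : List Int}
    {G : List Int} (hG : Nn v G)
    (hv : Env A v) {c g b k r y C GG B KK Y : Int} (hc : Rep v 400 c C) (hg : Rep v 400 g GG)
    (hb : Rep v 900 b B) (hk : Rep v 400 k KK) (hy : Rep v 2048 y Y)
    {i j : Int} (hVW : VWZ A PL PR j C GG) (hHW : HWZ A i B KK) (hij : i ≠ j)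
    (hr : Rep v 2048 r (B - C + 1))
    {m1 m2 m3 m4 : M} {k0 k1 k2 k3 : K}
    (h : leafF2 G c g b k r y m1 m2 m3 m4 k0 k1 k2 k3 = true) : False := by
  unfold leafF2 at h
  simp only [Bool.and_eq_true] at h
  obtain ⟨⟨a3, a1, a2⟩, ⟨a6, a4, a5⟩, a7⟩ := h
  have hw := hv.w
  have hh := hv.h
  have b1 := mem_sound hG hv hr ((hg.sub hh).mono (by norm_num)) hh (qh0 A) a1
  have b2 := mem_sound hG hv hy ((hg.sub hh).mono (by norm_num)) hh (qh0 A) a2
  have b4 := mem_sound hG hv hr ((hk.sub hw).mono (by norm_num)) hw (qw0 A) a4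
  have b5 := mem_sound hG hv hy ((hk.sub hw).mono (by norm_num)) hw (qw0 A) a5
  refine phk_sound hG hv (hc.mono (by norm_num)) (hb.mono (by norm_num)) hr hy a7
    (ruleZ hE hVW hHW hij ?_ ?_)
  · rw [b1, b2]; exact bx_iff a3
  · rw [b4, b5]; exact bx_iff a6

/-- check of one instance of (E0), free walls -/
noncomputable def leafF (G : List Int) (bL bR : BD) (X Y : C3) (side tb nb : Bool)
    (nc d1 d2 yc : Nat) (yo : Bool) (m1 m2 m3 m4 : M) (k0 k1 k2 k3 : K) : Bool :=
  and (@Bool.rec (fun _ => Bool) (bL.ok G X.T d1 d2) (bR.ok G X.T d1 d2) side)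
  (and (nek G Y.T X.T nb nc)
    ((fun c g b k => (fun r => (fun y =>
      leafF2 G c g b k r y m1 m2 m3 m4 k0 k1 k2 k3) (lev g k 0 yc yo))
      (Int.add (Int.sub b c) 1))
    (@Bool.rec (fun _ => Int) X.U (Int.add X.U fw) side)
    (@Bool.rec (fun _ => Int) X.S (Int.sub X.S fw) side)
    (@Bool.rec (fun _ => Int) (Int.add Y.U Y.S) (Int.sub (Int.add Y.U Y.S) fh) tb)
    (@Bool.rec (fun _ => Int) Y.S (Int.sub Y.S fh) tb)))

theorem IsC.mq {A : TAp} {i U S θ : ℤ} (h : IsC A i U S θ) : Mq A S := by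
  obtain ⟨s, hs, -⟩ := h.1.2.1; exact ⟨s, hs⟩

/-- horizontal walls -/
theorem hw_rep {A : TAp} {v : List Int} (hv : Env A v) {Y : C3} {i : Int} (hY : ClOk A v Y i)
    (tb : Bool) : ∃ B KK,
      Rep v 800 (@Bool.rec (fun _ => Int) (Int.add Y.U Y.S) (Int.sub (Int.add Y.U Y.S) fh) tb) B ∧
      Rep v 390 (@Bool.rec (fun _ => Int) Y.S (Int.sub Y.S fh) tb) KK ∧ Mq A KK ∧
      HWZ A i B KK := by
  obtain ⟨U, S, θ, ci, r1, r2, r3⟩ := hY
  have hh := hv.h
  obtain ⟨s, hs⟩ := ci.mq
  cases tb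
  · exact ⟨U + S, S, (r1.add r2).mono (by norm_num), r2.mono (by norm_num), ⟨s, hs⟩, U, S, θ, ci,
      Or.inl ⟨rfl, rfl⟩⟩
  · exact ⟨U + S - A.q * A.h, S - A.q * A.h, ((r1.add r2).sub hh).mono (by norm_num),
      (r2.sub hh).mono (by norm_num), ⟨s - A.h, by rw [hs]; ring⟩, U, S, θ, ci,
      Or.inr ⟨rfl, rfl⟩⟩

theorem leafF_sound {A : TAp} {PL PR : ℤ → Prop} (hE : RuleF A PL PR) {v : List Int}
    {G : List Int} (hG : Nn v G) (hv : Env A v)
    {bL bR : BD} {lL hL lR hR : Option Int} (b1 : BOk A v bL.lo lL) (b2 : BOk A v bL.hi hL)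
    (b3 : BOk A v bR.lo lR) (b4 : BOk A v bR.hi hR)
    (hPL : ∀ j, (∀ l ∈ lL, l < j) → (∀ u ∈ hL, j < u) → PL j)
    (hPR : ∀ j, (∀ l ∈ lR, l < j) → (∀ u ∈ hR, j < u) → PR j)
    {X Y : C3} {i j : Int}
    (hX : ClOk A v X j) (hY : ClOk A v Y i)
    {side tb nb : Bool} {nc d1 d2 yc : Nat} {yo : Bool} {m1 m2 m3 m4 : M} {k0 k1 k2 k3 : K}
    (h : leafF G bL bR X Y side tb nb nc d1 d2 yc yo m1 m2 m3 m4 k0 k1 k2 k3 = true) :
    False := by
  obtain ⟨U, S, θ, cj, xU, xS, xT⟩ := hX
  have hw := hv.w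
  have hh := hv.h
  unfold leafF at h
  simp only [Bool.and_eq_true] at h
  obtain ⟨h1, h3, h2⟩ := h
  have hij : i ≠ j := by
    obtain ⟨U', S', θ', ci, yU, yS, yT⟩ := hY
    exact Rec.inj ci.1 cj.1 (nek_sound hG yT xT h3)
  obtain ⟨sj, hsj⟩ := cj.mq
  obtain ⟨C, GG, hc, hg, gq, hVW⟩ : ∃ C GG,
      Rep v 390 (@Bool.rec (fun _ => Int) X.U (Int.add X.U fw) side) C ∧
      Rep v 390 (@Bool.rec (fun _ => Int) X.S (Int.sub X.S fw) side) GG ∧ Mq A GG ∧
      VWZ A PL PR j C GG := by
    cases side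
    · have := BD.sound hG b1 b2 cj.1.2.2 xT h1
      exact ⟨U, S, xU.mono (by norm_num), xS.mono (by norm_num), ⟨sj, hsj⟩,
        Or.inl ⟨θ, cj, hPL j this.1 this.2⟩⟩
    · have := BD.sound hG b3 b4 cj.1.2.2 xT h1
      refine ⟨U + A.q * A.w, S - A.q * A.w, (xU.add hw).mono (by norm_num),
        (xS.sub hw).mono (by norm_num), ⟨sj - A.w, by rw [hsj]; ring⟩,
        Or.inr ⟨θ, ?_, hPR j this.1 this.2⟩⟩
      rw [add_sub_cancel_right, sub_add_cancel]; exact cj
  obtain ⟨B, KK, hb, hk, kq, hHW⟩ := hw_rep hv hY tb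
  have hr := (hb.sub hc).add Rep.one
  obtain ⟨Y', hy⟩ := lev_rep hv (hg.mono (by norm_num)) (hk.mono (by norm_num))
    ((Rep.cst (c := 0) (C := 0) (by omega)).mono (by norm_num)) gq kq ⟨0, by ring⟩ yc yo
  exact leafF2_sound hE hG hv (hc.mono (by norm_num)) (hg.mono (by norm_num))
    (hb.mono (by norm_num)) (hk.mono (by norm_num)) (hy.mono (by norm_num)) hVW hHW hij
    (hr.mono (by norm_num)) h2

/-! ### merged lines -/

noncomputable def sgn (sp : Bool) : Int := @Bool.rec (fun _ => Int) (-1) 1 sp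

/-- the left wall of `X` and the right wall of `R` form a merged line -/
noncomputable def mline (sp : Bool) (X R : C3) : Bool :=
  (fun a => and (nn a) (nn (Int.neg a)))
    (Int.sub (Int.sub (Int.sub X.U fw) (sgn sp)) R.U)

theorem mline_sound {A : TAp} {v : List Int} (hv : Env A v) {sp : Bool}
    (hsg : A.sg = if sp then 1 else -1) {X R : C3} {j i : Int} (hX : ClOk A v X j)
    (hR : ClOk A v R i) (h : mline sp X R = true) :
    ∃ c S S', MLZ A j i c S S' ∧ Rep v 384 X.U c ∧ Rep v 384 X.S S ∧ Rep v 384 R.S S' := by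
  obtain ⟨U, S, θ, c, r1, r2, r3⟩ := hX
  obtain ⟨U', S', θ', c', r1', r2', r3'⟩ := hR
  change and (nn (X.U - fw - sgn sp - R.U)) (nn (-(X.U - fw - sgn sp - R.U))) = true at h
  simp only [Bool.and_eq_true] at h
  have h1 := nn_le h.1
  have h2 := nn_le h.2
  have hs : Rep v 1 (sgn sp) A.sg := by
    rw [hsg]
    cases sp
    · exact Rep.cst (c := -1) (by omega)
    · exact Rep.cst (c := 1) (by omega)
  have e1 := (((r1.sub hv.w).sub hs).sub r1').zero (by norm_num) (by omega)
  refine ⟨U, S, S', ⟨⟨θ, c⟩, θ', ?_⟩, r1, r2, r2'⟩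
  rwa [show U - A.q * A.w - A.sg = U' by omega]

/-- memberships of `r`, `y` in the arcs of the two walls of a merged line -/
noncomputable def chk4 (G : List Int) (g e r y : Int) (m1 m2 m3 m4 : M) : Bool :=
  and (and (m1.ok G r (Int.sub g fh) fh) (m2.ok G y (Int.sub g fh) fh))
    (and (m3.ok G r (Int.sub e fh) fh) (m4.ok G y (Int.sub e fh) fh))

noncomputable def kap2 (m1 m2 m3 m4 : M) : Bool :=
  and (bx m1.b m3.b) (and (bx m2.b m4.b) (bx m1.b m2.b))

noncomputable def kap1 (m1 m2 m3 m4 : M) : Bool :=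
  bx (bx m1.b m3.b) (bx m2.b m4.b)

theorem chk4_sound {A : TAp} {v : List Int} {G : List Int} (hG : Nn v G) (hv : Env A v)
    {g e r y S S' R Y : Int} (hg : Rep v 384 g S) (he : Rep v 384 e S')
    (hr : Rep v 2048 r R) (hy : Rep v 2048 y Y) {m1 m2 m3 m4 : M}
    (h : chk4 G g (Int.sub e fw) r y m1 m2 m3 m4 = true) :
    (kap2 m1 m2 m3 m4 = true → chiZ A S S' R - chiZ A S S' Y = 2 ∨
      chiZ A S S' R - chiZ A S S' Y = -2) ∧
    (kap1 m1 m2 m3 m4 = true → chiZ A S S' R - chiZ A S S' Y = 1 ∨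
      chiZ A S S' R - chiZ A S S' Y = -1) := by
  unfold chk4 at h
  simp only [Bool.and_eq_true] at h
  obtain ⟨⟨h1, h2⟩, h3, h4⟩ := h
  have hw := hv.w
  have hh := hv.h
  have b1 := mem_sound hG hv hr ((hg.sub hh).mono (by norm_num)) hh (qh0 A) h1
  have b2 := mem_sound hG hv hy ((hg.sub hh).mono (by norm_num)) hh (qh0 A) h2
  have b3 := mem_sound hG hv hr (((he.sub hw).sub hh).mono (by norm_num)) hh (qh0 A) h3
  have b4 := mem_sound hG hv hy (((he.sub hw).sub hh).mono (by norm_num)) hh (qh0 A) h4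
  unfold chiZ kap2 kap1
  have t : ∀ b : Bool, ∀ (P : Prop) [Decidable P], (P ↔ b = true) →
      (if P then (1 : Int) else 0) = if b = true then 1 else 0 := by
    intro b P _ hP
    by_cases h : P
    · rw [if_pos h, if_pos (hP.1 h)]
    · rw [if_neg h, if_neg (fun h' => h (hP.2 h'))]
  rw [t _ _ b1, t _ _ b2, t _ _ b3, t _ _ b4]
  cases m1.b <;> cases m2.b <;> cases m3.b <;> cases m4.b <;> decide

/-- merged line, `κ = ± 2`, active horizontal wall -/
noncomputable def leafM (G : List Int) (sp : Bool) (X R Y : C3) (tb n1 n2 : Bool)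
    (c1 c2 yc : Nat) (yo : Bool) (m1 m2 m3 m4 m5 m6 : M) : Bool :=
  and (mline sp X R) (and (and (nek G Y.T X.T n1 c1) (nek G Y.T R.T n2 c2))
    ((fun b k => (fun r => (fun y =>
      and (chk4 G X.S (Int.sub R.S fw) r y m1 m2 m3 m4) (and (kap2 m1 m2 m3 m4)
        (and (bx m5.b m6.b)
          (and (m5.ok G r (Int.sub k fw) fw) (m6.ok G y (Int.sub k fw) fw)))))
        (lev X.S k (Int.sub R.S fw) yc yo))
      (Int.add (Int.sub b X.U) 1))
    (@Bool.rec (fun _ => Int) (Int.add Y.U Y.S) (Int.sub (Int.add Y.U Y.S) fh) tb)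
    (@Bool.rec (fun _ => Int) Y.S (Int.sub Y.S fh) tb)))

/-- merged line, `κ = ± 1`, active horizontal wall, `Φ(Y) ≠ Φ(r)` -/
noncomputable def leafN (G : List Int) (sp : Bool) (X R Y : C3) (tb n1 n2 : Bool)
    (c1 c2 yc : Nat) (yo : Bool) (m1 m2 m3 m4 m5 m6 : M) (k0 k1 k2 k3 : K) : Bool :=
  and (mline sp X R) (and (and (nek G Y.T X.T n1 c1) (nek G Y.T R.T n2 c2))
    ((fun b k => (fun r => (fun y =>
      and (chk4 G X.S (Int.sub R.S fw) r y m1 m2 m3 m4) (and (kap1 m1 m2 m3 m4)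
        (and (and (bx m5.b m6.b)
          (and (m5.ok G r (Int.sub k fw) fw) (m6.ok G y (Int.sub k fw) fw)))
          (phk G X.U b r y k0 k1 k2 k3))))
        (lev X.S k (Int.sub R.S fw) yc yo))
      (Int.add (Int.sub b X.U) 1))
    (@Bool.rec (fun _ => Int) (Int.add Y.U Y.S) (Int.sub (Int.add Y.U Y.S) fh) tb)
    (@Bool.rec (fun _ => Int) Y.S (Int.sub Y.S fh) tb)))

theorem ne2 {A : TAp} {v : List Int} {G : List Int} (hG : Nn v G) {X Y : C3} {i j : Int}
    (hX : ClOk A v X j) (hY : ClOk A v Y i) {n : Bool} {c : Nat}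
    (h : nek G Y.T X.T n c = true) : i ≠ j := by
  obtain ⟨U, S, θ, cj, xU, xS, xT⟩ := hX
  obtain ⟨U', S', θ', ci, yU, yS, yT⟩ := hY
  exact Rec.inj ci.1 cj.1 (nek_sound hG yT xT h)

theorem MLZ.mq {A : TAp} {j i c S S' : ℤ} (h : MLZ A j i c S S') : Mq A S ∧ Mq A S' := by
  obtain ⟨⟨θ, h1⟩, θ', h2⟩ := h
  exact ⟨h1.mq, h2.mq⟩

theorem leafM_sound {A : TAp} (F : A.Fl) {v : List Int}
    {G : List Int} (hG : Nn v G) (hv : Env A v) {sp : Bool}
    (hsg : A.sg = if sp then 1 else -1) {X R Y : C3} {i j l : Int}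
    (hX : ClOk A v X j) (hR : ClOk A v R l) (hY : ClOk A v Y i)
    {tb n1 n2 : Bool} {c1 c2 yc : Nat} {yo : Bool} {m1 m2 m3 m4 m5 m6 : M}
    (h : leafM G sp X R Y tb n1 n2 c1 c2 yc yo m1 m2 m3 m4 m5 m6 = true) : False := by
  unfold leafM at h
  simp only [Bool.and_eq_true] at h
  obtain ⟨h1, ⟨h2, h2'⟩, h3, h4, h5, h6, h7⟩ := h
  have hw := hv.w
  obtain ⟨c, S, S', hM, r1, r3, r4⟩ := mline_sound hv hsg hX hR h1
  obtain ⟨B, KK, hb, hk, kq, hHW⟩ := hw_rep hv hY tb
  have hr := ((hb.sub r1).add Rep.one).mono (N := 2048) (by norm_num)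
  obtain ⟨s', hs'⟩ := hM.mq.2
  obtain ⟨Y', hy⟩ := lev_rep hv (r3.mono (by norm_num)) (hk.mono (by norm_num))
    ((r4.sub hw).mono (by norm_num)) hM.mq.1 kq ⟨s' - A.w, by rw [hs']; ring⟩ yc yo
  have hy := hy.mono (N := 2048) (by norm_num)
  have hil := ne2 hG hX hY h2
  have hir := ne2 hG hR hY h2'
  obtain ⟨k2, -⟩ := chk4_sound hG hv r3 r4 hr hy h3
  have b4 := mem_sound hG hv hr ((hk.sub hw).mono (by norm_num)) hw (qw0 A) h6
  have b5 := mem_sound hG hv hy ((hk.sub hw).mono (by norm_num)) hw (qw0 A) h7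
  have main := (ruleM F hM hHW hil hir Y').2 (k2 h4)
  have := bx_iff h5
  rw [b4, b5] at main
  tauto

theorem leafN_sound {A : TAp} (F : A.Fl) {v : List Int}
    {G : List Int} (hG : Nn v G) (hv : Env A v) {sp : Bool}
    (hsg : A.sg = if sp then 1 else -1)
    {X R Y : C3} {i j l : Int}
    (hX : ClOk A v X j) (hR : ClOk A v R l) (hY : ClOk A v Y i)
    {tb n1 n2 : Bool} {c1 c2 yc : Nat} {yo : Bool} {m1 m2 m3 m4 m5 m6 : M} {k0 k1 k2 k3 : K}
    (h : leafN G sp X R Y tb n1 n2 c1 c2 yc yo m1 m2 m3 m4 m5 m6 k0 k1 k2 k3 = true) :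
    False := by
  unfold leafN at h
  simp only [Bool.and_eq_true] at h
  obtain ⟨h1, ⟨h2, h2'⟩, h3, h4, ⟨h5, h6, h7⟩, h8⟩ := h
  have hw := hv.w
  obtain ⟨c, S, S', hM, r1, r3, r4⟩ := mline_sound hv hsg hX hR h1
  obtain ⟨B, KK, hb, hk, kq, hHW⟩ := hw_rep hv hY tb
  have hr := ((hb.sub r1).add Rep.one).mono (N := 2048) (by norm_num)
  obtain ⟨s', hs'⟩ := hM.mq.2
  obtain ⟨Y', hy⟩ := lev_rep hv (r3.mono (by norm_num)) (hk.mono (by norm_num))
    ((r4.sub hw).mono (by norm_num)) hM.mq.1 kq ⟨s' - A.w, by rw [hs']; ring⟩ yc yo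
  have hy := hy.mono (N := 2048) (by norm_num)
  have hil := ne2 hG hX hY h2
  have hir := ne2 hG hR hY h2'
  obtain ⟨-, k1'⟩ := chk4_sound hG hv r3 r4 hr hy h3
  have b4 := mem_sound hG hv hr ((hk.sub hw).mono (by norm_num)) hw (qw0 A) h6
  have b5 := mem_sound hG hv hy ((hk.sub hw).mono (by norm_num)) hw (qw0 A) h7
  refine phk_sound hG hv (r1.mono (by norm_num)) (hb.mono (by norm_num)) hr hy h8
    ((ruleM F hM hHW hil hir Y').1 (k1' h4) ?_)
  rw [b4, b5]; exact bx_iff h5

/-- the height of a leaf of type `V` -/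
noncomputable def vht (sp : Bool) (U g e : Int) (rb : Nat) : Nat → Int :=
  @Nat.rec (fun _ => Int)
    (Int.add (Int.add U (base g 0 e rb)) (@Bool.rec (fun _ => Int) 2 1 sp)) (fun n _ =>
    @Nat.rec (fun _ => Int)
      (Int.sub (Int.add U (base g 0 e rb)) (@Bool.rec (fun _ => Int) 1 2 sp)) (fun n _ =>
    (fun d => @Nat.rec (fun _ => Int) (Int.sub 0 d) (fun n _ =>
    @Nat.rec (fun _ => Int) (Int.sub (-1) d) (fun n _ =>
    @Nat.rec (fun _ => Int) (Int.sub fD d) (fun _ _ => Int.sub (Int.sub fD 1) d) n) n) n)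
    (@Nat.rec (fun _ => Int) 0 (fun _ _ => fh) rb)) n)

/-- the scaled level of `r` for a leaf of type `V` -/
noncomputable def vlv (U g e b : Int) (rb : Nat) : Nat → Int :=
  @Nat.rec (fun _ => Int) (Int.add (base g 0 e rb) 1) (fun n _ =>
    @Nat.rec (fun _ => Int) (Int.add (base g 0 e rb) 0) (fun _ _ => Int.add (Int.sub b U) 1) n)

/-- merged line, `κ = ± 2`, at a special height -/
noncomputable def leafV (G : List Int) (sp : Bool) (X R : C3) (vk rb yc : Nat) (yo : Bool)
    (m1 m2 m3 m4 : M) (k0 k1 k2 k3 : K) : Bool :=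
  and (mline sp X R)
    ((fun b => (fun r => (fun y =>
      and (chk4 G X.S (Int.sub R.S fw) r y m1 m2 m3 m4) (and (kap2 m1 m2 m3 m4)
          (phk G X.U b r y k0 k1 k2 k3)))
        (lev X.S 0 (Int.sub R.S fw) yc yo))
      (vlv X.U X.S (Int.sub R.S fw) b rb vk)) (vht sp X.U X.S (Int.sub R.S fw) rb vk))

/-- a height `v` with `v ≢ 0` relative to both walls -/
theorem lvl_gen {A : TAp} {m f v : ℤ} (h : v - (A.q * m + f) + (if A.sg = 1 then 1 else 0) ≠
      A.q * ((v - (A.q * m + f) + (if A.sg = 1 then 1 else 0)) / A.q)) :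
    (A.q * (lvl A (v - (A.q * m + f) + 1) - 1) ≤ v - (A.q * m + f) ∧
      v - (A.q * m + f) < A.q * lvl A (v - (A.q * m + f) + 1)) ∧
    (A.q * (lvl A (v - (A.q * m + f) + 1) - 1) ≤ v - (A.q * m + f) + A.sg ∧
      v - (A.q * m + f) + A.sg < A.q * lvl A (v - (A.q * m + f) + 1)) := by
  have hq := A.q_pos'
  set β := v - (A.q * m + f) with hβ
  unfold lvl
  rw [add_sub_cancel_right, add_sub_cancel_right]
  have e1 := Int.mul_ediv_add_emod β A.q
  have r0 := Int.emod_nonneg β hq.ne'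
  have r1 := Int.emod_lt_of_pos β hq
  set d := β / (A.q : ℤ)
  set ρ := β % (A.q : ℤ)
  have e2 : A.q * (d + 1) = A.q * d + A.q := by ring
  rcases A.hsg with h1 | h1
  · rw [h1] at h ⊢
    rw [if_pos rfl] at h
    have : ρ ≠ A.q - 1 := by
      intro hc
      apply h
      have : (β + 1) / (A.q : ℤ) = d + 1 := by
        refine ((Int.ediv_emod_unique (r := 0) hq).2 ⟨?_, le_refl _, hq⟩).1
        omega
      rw [this, e2]; omega
    refine ⟨⟨by omega, by omega⟩, by omega, by omega⟩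
  · rw [h1] at h ⊢
    rw [if_neg (by norm_num), add_zero] at h
    have : ρ ≠ 0 := by
      intro hc
      apply h
      change β = A.q * d
      omega
    refine ⟨⟨by omega, by omega⟩, by omega, by omega⟩

theorem div_ne {q x : ℤ} (hq : 0 < q) (h : ¬ q ∣ x) : x ≠ q * (x / q) := by
  intro h'; exact h ⟨_, h'⟩

theorem not_dvd_fd {A : TAp} {i m f s : ℤ} (c : A.Cls i m f s) (z : ℤ) :
    ¬ (A.q : ℤ) ∣ A.D - (A.q * z + f) := by
  rintro ⟨t, ht⟩
  have h1 := c.f_ne_fd
  apply h1
  have hq := A.q_pos'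
  have f0 := c.2.2.1
  have f1 := c.2.2.2.1
  have g0 := A.hfd
  have g1 := A.hfd2
  have e : A.fd - f = A.q * (t + z - A.md) := by
    have : A.D = A.q * A.md + A.fd := rfl
    linear_combination ht - this
  have : t + z - A.md = 0 := by
    by_contra hc
    rcases lt_or_gt_of_ne hc with h4 | h4
    · have : t + z - A.md ≤ -1 := by omega
      nlinarith
    · have : 1 ≤ t + z - A.md := by omega
      nlinarith
  rw [this, mul_zero] at e
  omega

theorem Cls_nq {A : TAp} {i m f s : ℤ} (c : A.Cls i m f s) : ¬ (A.q : ℤ) ∣ f := by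
  intro h
  have := Int.le_of_dvd c.2.2.1 h
  have := c.2.2.2.1
  omega

theorem leafV_sound {A : TAp} (F : A.Fl) {v : List Int}
    {G : List Int} (hG : Nn v G) (hv : Env A v) {sp : Bool}
    (hsg : A.sg = if sp then 1 else -1) {X R : C3} {j l : Int}
    (hX : ClOk A v X j) (hR : ClOk A v R l)
    {vk rb yc : Nat} {yo : Bool} {m1 m2 m3 m4 : M} {k0 k1 k2 k3 : K}
    (h : leafV G sp X R vk rb yc yo m1 m2 m3 m4 k0 k1 k2 k3 = true) : False := by
  unfold leafV at h
  simp only [Bool.and_eq_true] at h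
  obtain ⟨h1, h3, h4, h8⟩ := h
  have hw := hv.w
  have hq := A.q_pos'
  have hh := hv.h
  obtain ⟨c, S, S', hM, r1, r3, r4⟩ := mline_sound hv hsg hX hR h1
  obtain ⟨s', hs'⟩ := hM.mq.2
  have c0 : Rep v 400 0 0 := (Rep.cst (c := 0) (C := 0) (by omega)).mono (by norm_num)
  obtain ⟨Y', hy⟩ := lev_rep hv (r3.mono (by norm_num)) c0
    ((r4.sub hw).mono (by norm_num)) hM.mq.1 ⟨0, by ring⟩ ⟨s' - A.w, by rw [hs']; ring⟩ yc yo
  have hy := hy.mono (N := 2048) (by norm_num)
  obtain ⟨E, hE, es, hEs⟩ := base_rep hv (r3.mono (by norm_num)) c0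
    ((r4.sub hw).mono (by norm_num)) hM.mq.1 ⟨0, by ring⟩ ⟨s' - A.w, by rw [hs']; ring⟩ rb
  obtain ⟨m, f, s, s2, cl, cr, hc, hS, hS'⟩ := hM.cls
  have q3 : 3 ≤ (A.q : ℤ) := by
    have := A.pq; have := A.w2; have := A.hw; omega
  -- the height, its level
  obtain ⟨V, x, hV, hx, l1, l2⟩ : ∃ V x, Rep v 1900 (vht sp X.U X.S (Int.sub R.S fw) rb vk) V ∧
      Rep v 2048 (vlv X.U X.S (Int.sub R.S fw) (vht sp X.U X.S (Int.sub R.S fw) rb vk) rb vk) x ∧
      (A.q * (lvl A x - 1) ≤ V - c ∧ V - c < A.q * lvl A x) ∧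
      (A.q * (lvl A x - 1) ≤ V - c + A.sg ∧ V - c + A.sg < A.q * lvl A x) := by
    have gen : ∀ (V : ℤ), Rep v 1200 (vht sp X.U X.S (Int.sub R.S fw) rb vk) V →
        Rep v 2048 (vlv X.U X.S (Int.sub R.S fw) (vht sp X.U X.S (Int.sub R.S fw) rb vk) rb vk)
          (V - c + 1) →
        (¬ (A.q : ℤ) ∣ V - c + (if A.sg = 1 then 1 else 0)) →
        ∃ V x, Rep v 1900 (vht sp X.U X.S (Int.sub R.S fw) rb vk) V ∧
      Rep v 2048 (vlv X.U X.S (Int.sub R.S fw) (vht sp X.U X.S (Int.sub R.S fw) rb vk) rb vk) x ∧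
      (A.q * (lvl A x - 1) ≤ V - c ∧ V - c < A.q * lvl A x) ∧
      (A.q * (lvl A x - 1) ≤ V - c + A.sg ∧ V - c + A.sg < A.q * lvl A x) := by
      intro V hV hx hnd
      rw [hc] at hnd hx ⊢
      have := lvl_gen (div_ne hq hnd)
      exact ⟨V, _, hV.mono (by norm_num), hx, this.1, this.2⟩
    have hd : ∃ d s3, Rep v 1 (@Nat.rec (fun _ => Int) 0 (fun _ _ => fh) rb) d ∧ d = A.q * s3 := by
      cases rb with
      | zero =>
        have : Rep v 1 0 0 := Rep.cst (by omega)
        exact ⟨0, 0, this, by ring⟩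
      | succ n => exact ⟨_, A.h, hh, rfl⟩
    obtain ⟨d, s3, hd1, hd2⟩ := hd
    match vk with
    | 0 =>
      have e1 : Rep v 2 (@Bool.rec (fun _ => Int) 2 1 sp) (if A.sg = 1 then 1 else 2) := by
        rw [hsg]
        cases sp
        · exact Rep.cst (c := 2) (by omega)
        · exact Rep.cst (c := 1) (by omega)
      have hV : Rep v 1900 (vht sp X.U X.S (Int.sub R.S fw) rb 0)
          (c + E + (if A.sg = 1 then 1 else 2)) := ((r1.add hE).add e1).mono (by norm_num)
      have hx : Rep v 2048 (vlv X.U X.S (Int.sub R.S fw) (vht sp X.U X.S (Int.sub R.S fw) rb 0) rb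
          0) (E + 1) := (hE.add Rep.one).mono (by norm_num)
      refine ⟨_, _, hV, hx, ?_⟩
      have el : lvl A (E + 1) = es + 1 := by
        unfold lvl
        rw [add_sub_cancel_right, hEs, Int.mul_ediv_cancel_left _ hq.ne']
      rw [el, hEs, show (A.q : ℤ) * (es + 1 - 1) = A.q * es by ring,
        show (A.q : ℤ) * (es + 1) = A.q * es + A.q by ring]
      rcases A.hsg with h | h <;> rw [h]
      · rw [if_pos rfl]; refine ⟨⟨by omega, by omega⟩, by omega, by omega⟩
      · rw [if_neg (by norm_num)]; refine ⟨⟨by omega, by omega⟩, by omega, by omega⟩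
    | 1 =>
      have e1 : Rep v 2 (@Bool.rec (fun _ => Int) 1 2 sp) (if A.sg = 1 then 2 else 1) := by
        rw [hsg]
        cases sp
        · exact Rep.cst (c := 1) (by omega)
        · exact Rep.cst (c := 2) (by omega)
      have hV : Rep v 1900 (vht sp X.U X.S (Int.sub R.S fw) rb 1)
          (c + E - (if A.sg = 1 then 2 else 1)) := ((r1.add hE).sub e1).mono (by norm_num)
      have hx : Rep v 2048 (vlv X.U X.S (Int.sub R.S fw) (vht sp X.U X.S (Int.sub R.S fw) rb 1) rb
          1) (E + 0) := (hE.add (Rep.cst (c := 0) (C := 0) (by omega))).mono (by norm_num)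
      refine ⟨_, _, hV, hx, ?_⟩
      have el : lvl A (E + 0) = es := by
        unfold lvl
        rw [add_zero, hEs]
        have : (A.q * es - 1) / (A.q : ℤ) = es - 1 := by
          refine ((Int.ediv_emod_unique (r := A.q - 1) hq).2 ⟨by ring, by omega, by omega⟩).1
        rw [this]; ring
      rw [el, hEs, show (A.q : ℤ) * (es - 1) = A.q * es - A.q by ring]
      rcases A.hsg with h | h <;> rw [h]
      · rw [if_pos rfl]; refine ⟨⟨by omega, by omega⟩, by omega, by omega⟩
      · rw [if_neg (by norm_num)]; refine ⟨⟨by omega, by omega⟩, by omega, by omega⟩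
    | 2 =>
      have hV : Rep v 1200 (vht sp X.U X.S (Int.sub R.S fw) rb 2) (0 - d) :=
        ((Rep.cst (c := 0) (C := 0) (by omega)).sub hd1).mono (by norm_num)
      have hx := ((hV.sub r1).add Rep.one).mono (N := 2048) (by norm_num)
      refine gen _ hV hx ?_
      rintro ⟨t, ht⟩
      rcases A.hsg with h | h <;> rw [h] at ht
      · rw [if_pos rfl] at ht
        exact Cls_nq cr ⟨-t - s3 - m, by rw [h]; linear_combination -ht - hd2 - hc⟩
      · rw [if_neg (by norm_num)] at ht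
        exact Cls_nq cl ⟨-t - s3 - m, by linear_combination -ht - hd2 - hc⟩
    | 3 =>
      have hV : Rep v 1200 (vht sp X.U X.S (Int.sub R.S fw) rb 3) (-1 - d) :=
        ((Rep.cst (c := -1) (C := 1) (by omega)).sub hd1).mono (by norm_num)
      have hx := ((hV.sub r1).add Rep.one).mono (N := 2048) (by norm_num)
      refine gen _ hV hx ?_
      rintro ⟨t, ht⟩
      rcases A.hsg with h | h <;> rw [h] at ht
      · rw [if_pos rfl] at ht
        exact Cls_nq cl ⟨-t - s3 - m, by linear_combination -ht - hd2 - hc⟩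
      · rw [if_neg (by norm_num)] at ht
        exact Cls_nq cr ⟨-t - s3 - m, by rw [h]; linear_combination -ht - hd2 - hc⟩
    | 4 =>
      have hV : Rep v 1200 (vht sp X.U X.S (Int.sub R.S fw) rb 4) (A.D - d) :=
        (hv.D.sub hd1).mono (by norm_num)
      have hx := ((hV.sub r1).add Rep.one).mono (N := 2048) (by norm_num)
      refine gen _ hV hx ?_
      rintro ⟨t, ht⟩
      rcases A.hsg with h | h <;> rw [h] at ht
      · rw [if_pos rfl] at ht
        exact not_dvd_fd cr m ⟨t + s3, by rw [h]; linear_combination ht + hd2 + hc⟩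
      · rw [if_neg (by norm_num)] at ht
        exact not_dvd_fd cl m ⟨t + s3, by linear_combination ht + hd2 + hc⟩
    | n + 5 =>
      have hV : Rep v 1200 (vht sp X.U X.S (Int.sub R.S fw) rb (n + 5)) (A.D - 1 - d) :=
        ((hv.D.sub Rep.one).sub hd1).mono (by norm_num)
      have hx := ((hV.sub r1).add Rep.one).mono (N := 2048) (by norm_num)
      refine gen _ hV hx ?_
      rintro ⟨t, ht⟩
      rcases A.hsg with h | h <;> rw [h] at ht
      · rw [if_pos rfl] at ht
        exact not_dvd_fd cl m ⟨t + s3, by linear_combination ht + hd2 + hc⟩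
      · rw [if_neg (by norm_num)] at ht
        exact not_dvd_fd cr m ⟨t + s3, by rw [h]; linear_combination ht + hd2 + hc⟩
  obtain ⟨k2', -⟩ := chk4_sound hG hv r3 r4 hx hy h3
  exact phk_sound hG hv (r1.mono (by norm_num)) hV hx hy h8 (ruleV F hM l1 l2 (k2' h4))

end Pool.Agent.H78.RT
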