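import Pool.Agent.H78.RT.Tree
import Pool.Agent.H42.Tie.Dbl

/-!
# Instances: rules, records, static inequalities
-/

namespace Pool.Agent.H78.RT

open Pool.Agent.H78.Tie
open Pool.Agent.H78.Tie.TAp
open Pool.Agent.H98.Flat (InA)

/-- the rule for free walls, single ties -/
theorem ruleF {A : TAp} (F : A.Fl) (T : A.Tie) (hs : T.Single) : RuleF A T.FreeL T.FreeR := by
  intro j i mc fc g mb fb k r hj hi hij hr Y h1 h2
  exact TAp.E0f F T hs hj hi hij hr Y h1 h2

/-- the rule for free walls, double ties -/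
theorem ruleF2 {A : TAp} (F : A.Fl) (T : A.Tie) : RuleF A T.FreeL2 T.FreeR2 := by
  intro j i mc fc g mb fb k r hj hi hij hr Y h1 h2
  exact TAp.E0f2 F T hj hi hij hr Y h1 h2

theorem p_dvd_D (A : TAp) : (A.p : ℤ) ∣ A.D := by
  have h1 := (dvd_mul_right (A.p : ℤ) A.q).trans A.hd
  have h2 := dvd_sub (A.hpa.mul_right A.p) h1
  rwa [sub_sub_cancel] at h2

/-- `θ` of an index -/
def th (A : TAp) (i : ℤ) : ℤ := A.D / A.p * i

theorem th_eq (A : TAp) (i : ℤ) : A.D * i = A.p * th A i := by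
  have h := Int.mul_ediv_cancel' (p_dvd_D A)
  unfold th
  rw [← mul_assoc, h]

theorem th_add (A : TAp) (i j : ℤ) : th A (i + j) = th A i + th A j := by unfold th; ring
theorem th_sub (A : TAp) (i j : ℤ) : th A (i - j) = th A i - th A j := by unfold th; ring
theorem th_neg (A : TAp) (i : ℤ) : th A (-i) = - th A i := by unfold th; ring
theorem th_mul (A : TAp) (c i : ℤ) : th A (c * i) = c * th A i := by unfold th; ring
theorem th_zero (A : TAp) : th A 0 = 0 := by unfold th; ring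

theorem th_p (A : TAp) : th A A.p = A.D := by
  have h := Int.mul_ediv_cancel' (p_dvd_D A)
  unfold th
  rw [mul_comm]; exact h

theorem Dp_pos (A : TAp) : 0 < A.D / (A.p : ℤ) := by
  have h := Int.mul_ediv_cancel' (p_dvd_D A)
  have hD := D_pos A
  rw [← h] at hD
  exact (mul_pos_iff_of_pos_left A.p_pos').1 hD

theorem th_lt (A : TAp) {i j : ℤ} (h : i < j) : th A i < th A j :=
  mul_lt_mul_of_pos_left h (Dp_pos A)

theorem th_pos (A : TAp) {i : ℤ} (h : 0 < i) : 0 < th A i := by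
  have := th_lt A h
  rwa [th_zero] at this

theorem th_ltD (A : TAp) {i : ℤ} (h : i < A.p) : th A i < A.D := by
  have := th_lt A h
  rwa [th_p] at this

/-- strict monotonicity, with the gap `1` -/
theorem th_lt_iff (A : TAp) {i j : ℤ} : th A i < th A j ↔ i < j :=
  ⟨fun h => lt_of_mul_lt_mul_left h (Dp_pos A).le, th_lt A⟩

theorem th_mod (A : TAp) (i : ℤ) : (A.q : ℤ) ∣ A.a * i - th A i := by
  obtain ⟨z, hz⟩ := A.hd
  have h := Int.mul_ediv_cancel' (p_dvd_D A)
  have hp : (A.p : ℤ) ≠ 0 := A.p_pos'.ne'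
  have e1 : A.a - A.D / A.p = A.q * z := by
    apply mul_left_cancel₀ hp
    have : A.D = A.q * A.md + A.fd := rfl
    rw [this] at h ⊢
    linear_combination hz + h.symm - h + h
  exact ⟨z * i, by unfold th; linear_combination i * e1⟩

/-- records from lifts -/
theorem Rec.of {A : TAp} {i U s : ℤ} (h1 : NN A ∣ A.a * i - U) (h2 : (A.p : ℤ) ∣ A.e * i - s) :
    Rec A i U (A.q * s) (th A i) := ⟨h1, ⟨s, rfl, h2⟩, th_eq A i⟩

theorem Rec.ofCls {A : TAp} {i m f s : ℤ} (h : A.Cls i m f s) :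
    Rec A i (A.q * m + f) (A.q * s) (th A i) := Rec.of h.2.2.2.2.1 h.2.2.2.2.2

theorem IsC.ofCls {A : TAp} {i m f s : ℤ} (h : A.Cls i m f s) :
    IsC A i (A.q * m + f) (A.q * s) (th A i) := ⟨Rec.ofCls h, h.1, h.2.1⟩

theorem Rec.tie {A : TAp} (T : A.Tie) :
    Rec A T.t (T.ep * (A.q * A.w + A.sg)) (A.q * (T.ep * (T.x - A.w))) (th A T.t) :=
  Rec.of T.tie T.row

/-- `U ≡ θ` modulo `q` -/
theorem Rec.mod {A : TAp} {i U S θ : ℤ} (h : Rec A i U S θ) : (A.q : ℤ) ∣ U - θ := by
  have h1 := (dvd_mul_left (A.q : ℤ) A.p).trans h.1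
  have h2 := th_mod A i
  have h3 : θ = th A i := by
    have := h.2.2
    rw [th_eq A i] at this
    exact (mul_left_cancel₀ A.p_pos'.ne' this).symm
  rw [h3]
  have := dvd_sub h2 h1
  rwa [show A.a * i - th A i - (A.a * i - U) = U - th A i by ring] at this

theorem Rec.th {A : TAp} {i U S θ : ℤ} (h : Rec A i U S θ) : θ = th A i := by
  have := h.2.2
  rw [th_eq A i] at this
  exact (mul_left_cancel₀ A.p_pos'.ne' this).symm

/-! ### static inequalities -/

theorem q6 (A : TAp) : (6 : ℤ) ≤ A.q := by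
  have := A.pq; have := A.w2; have := A.hw; omega

theorem W2 (A : TAp) : 2 * (A.q : ℤ) ≤ A.q * A.w := by
  have := A.hw
  have hq := A.q_pos'
  have : (2 : ℤ) ≤ A.w := by exact_mod_cast this
  nlinarith

theorem H2 (A : TAp) : 2 * (A.q : ℤ) ≤ A.q * A.h := by
  have := A.hh
  have hq := A.q_pos'
  have : (2 : ℤ) ≤ A.h := by exact_mod_cast this
  nlinarith

theorem NW (A : TAp) : 2 * (A.q * A.w : ℤ) + A.q ≤ NN A := by
  have := A.w2
  have hq := A.q_pos'
  have : 2 * (A.w : ℤ) + 1 ≤ A.p := by exact_mod_cast this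
  unfold NN
  nlinarith

theorem NH (A : TAp) : 2 * (A.q * A.h : ℤ) + A.q ≤ NN A := by
  have := A.h2
  have hq := A.q_pos'
  have : 2 * (A.h : ℤ) + 1 ≤ A.p := by exact_mod_cast this
  unfold NN
  nlinarith

theorem ND (A : TAp) : 2 * A.D + 2 ≤ NN A + A.q := by
  have h1 := A.hmd2
  have h2 := A.hfd2
  have hq := A.q_pos'
  have e : A.D = A.q * A.md + A.fd := rfl
  have : 2 * A.md + 1 ≤ A.p := by omega
  unfold NN
  nlinarith

/-- lower bound for `θ` from its residue `± 1` -/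
theorem th_ge {A : TAp} {i e : ℤ} (hi : 0 < i) (hi1 : i ≠ 1) (he : e = 1 ∨ e = -1)
    (h : (A.q : ℤ) ∣ th A i - e) : A.q + e ≤ th A i := by
  have h0 := th_pos A hi
  obtain ⟨z, hz⟩ := h
  have hq := q6 A
  have z0 : 0 ≤ z := by
    by_contra hc
    have : z ≤ -1 := by omega
    have : A.q * z ≤ A.q * (-1) := mul_le_mul_of_nonneg_left this (by omega)
    omega
  rcases eq_or_lt_of_le z0 with h1 | h1
  · exfalso
    subst h1
    rw [mul_zero] at hz
    have h2 : th A i = 1 := by omega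
    apply hi1
    have h3 := Dp_pos A
    unfold RT.th at h2
    have h4 : A.D / A.p = 1 := by
      nlinarith
    rw [h4, one_mul] at h2
    exact h2
  · have : A.q * 1 ≤ A.q * z := mul_le_mul_of_nonneg_left (by omega) (by omega)
    omega

theorem tie_th {A : TAp} (T : A.Tie) (ht : T.t ≠ 1) : A.q + T.ep * A.sg ≤ th A T.t := by
  refine th_ge T.t0 ht ?_ ?_
  · rcases T.hep with h | h <;> rcases A.hsg with h' | h' <;> rw [h, h'] <;> norm_num
  · have h1 := (Rec.tie T).mod
    have h2 : (A.q : ℤ) ∣ T.ep * (A.q * A.w) := (dvd_mul_right _ _).mul_left _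
    have h3 := dvd_sub h2 h1
    rwa [show T.ep * (A.q * A.w) - (T.ep * (A.q * A.w + A.sg) - th A T.t)
      = th A T.t - T.ep * A.sg by ring] at h3

end Pool.Agent.H78.RT
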