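import Pool.Agent.H78.RT.Chk

/-!
# Decision trees for ties, scaled form
-/

namespace Pool.Agent.H78.RT

open Pool.Agent.H81.AP (LF dot add smul dot_nil dot_nil' dot_cons dot_add dot_smul pack pack_add
  pack_smul Bd dot_eq_zero Rep nn nn_le dropK mem_dropK fp fw fh fD zp land63 emod_le_self'
  b2i get1 get1_mem bdB bdB_sound bdL bdL_sound packL packL_mem bd_unit AllNn AllNe)
open Pool.Agent.H78.Tie
open Pool.Agent.H98.Flat (InA)

/-- decode a form: digits in base `64` with offset `32` -/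
noncomputable def dec (k : Nat) : Nat → Int :=
  @Nat.rec (fun _ => Nat → Int) (fun _ => 0)
    (fun _ ih n => @Bool.rec (fun _ => Int)
      (Int.add (Int.subNatNat (Nat.land n 63) 32) (Int.mul 16777216 (ih (Nat.shiftRight n 6)))) 0
      (Nat.beq n 0)) k

theorem dec_rep : ∀ (k n : Nat), ∃ l : LF, pack l = dec k n ∧ Bd 32 l
  | 0, _ => ⟨[], rfl, by intro a ha; simp at ha⟩
  | k + 1, n => by
    change ∃ l : LF, pack l = @Bool.rec (fun _ => Int)
      (Int.subNatNat (Nat.land n 63) 32 + 16777216 * dec k (Nat.shiftRight n 6)) 0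
      (Nat.beq n 0) ∧ Bd 32 l
    cases Nat.beq n 0
    · obtain ⟨l, h1, h2⟩ := dec_rep k (Nat.shiftRight n 6)
      refine ⟨Int.subNatNat (Nat.land n 63) 32 :: l, by rw [pack, h1], ?_⟩
      intro a ha
      rcases List.mem_cons.1 ha with rfl | ha
      · have h : Nat.land n 63 ≤ 63 := Nat.and_le_right
        rw [Int.subNatNat_eq_coe]
        constructor <;> push_cast <;> omega
      · exact h2 a ha
    · exact ⟨[], rfl, by intro a ha; simp at ha⟩

/-- decision trees -/
inductive T where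
  /-- the context is contradictory -/
  | inf (c : Nat)
  /-- branch on the sign of a form: `f ≥ 0` or `-1 - f ≥ 0` -/
  | br (f : Nat) (a b : T)
  /-- branch on the sign of a form of the list `N` (nonzero forms) -/
  | ne (k : Nat) (a b : T)
  /-- all the literals of a clause are refuted -/
  | ax (k : Nat) (cs : List Nat)
  /-- new class -/
  | cl (code c1 c2 : Nat) (a : T)
  /-- the row of a class is zero -/
  | rz (X z c1 c2 : Nat)
  /-- the abscissa of a class is zero -/
  | qz (X z c1 c2 : Nat)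
  /-- `θ = 0` for a combination, but `S` (`mm = false`) or `U` is not zero mod `N` -/
  | zz (code : Nat) (mm : Bool) (z c1 c2 c3 c4 : Nat)
  /-- forbidden overlap -/
  | ov (X z z' c1 c2 c3 c4 : Nat) (e : List (Bool × Nat))
  | lf (X Y : Nat) (side tb nb : Bool) (nc d1 d2 yc : Nat) (yo : Bool) (m1 m2 m3 m4 : M)
      (k0 k1 k2 k3 : K)
  | mm (X R Y : Nat) (tb n1 n2 : Bool) (c1 c2 yc : Nat) (yo : Bool) (m1 m2 m3 m4 m5 m6 : M)
  | mn (X R Y : Nat) (tb n1 n2 : Bool) (c1 c2 yc : Nat) (yo : Bool) (m1 m2 m3 m4 m5 m6 : M)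
      (k0 k1 k2 k3 : K)
  | mv (X R vk rb yc : Nat) (yo : Bool) (m1 m2 m3 m4 : M) (k0 k1 k2 k3 : K)

noncomputable def get3 (n : Nat) : List C3 → Option C3 :=
  @Nat.rec (fun _ => List C3 → Option C3)
    (fun l => @List.rec C3 (fun _ => Option C3) none (fun a _ _ => some a) l)
    (fun _ ih l => ih (@List.rec C3 (fun _ => List C3) [] (fun _ t _ => t) l)) n

theorem get3_mem {X : C3} : ∀ {n : Nat} {l : List C3}, get3 n l = some X → X ∈ l
  | 0, [], h => by exact absurd h (by simp [get3])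
  | n + 1, [], h => by
    have : get3 n [] = some X := h
    exact get3_mem this
  | 0, a :: _, h => by
    have : some a = some X := h
    rw [Option.some.injEq] at this
    rw [this]; exact List.mem_cons_self
  | n + 1, _ :: l, h => by
    have : get3 n l = some X := h
    exact List.mem_cons_of_mem _ (get3_mem this)

noncomputable def getL (n : Nat) : List (List Int) → Option (List Int) :=
  @Nat.rec (fun _ => List (List Int) → Option (List Int))
    (fun l => @List.rec (List Int) (fun _ => Option (List Int)) none (fun a _ _ => some a) l)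
    (fun _ ih l => ih (@List.rec (List Int) (fun _ => List (List Int)) [] (fun _ t _ => t) l)) n

theorem getL_mem {X : List Int} : ∀ {n : Nat} {l : List (List Int)}, getL n l = some X → X ∈ l
  | 0, [], h => by exact absurd h (by simp [getL])
  | n + 1, [], h => by
    have : getL n [] = some X := h
    exact getL_mem this
  | 0, a :: _, h => by
    have : some a = some X := h
    rw [Option.some.injEq] at this
    rw [this]; exact List.mem_cons_self
  | n + 1, _ :: l, h => by
    have : getL n l = some X := h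
    exact List.mem_cons_of_mem _ (getL_mem this)

/-- all the literals are refuted -/
noncomputable def refs (G : List Int) (l : List Int) : List Nat → Bool :=
  @List.rec Int (fun _ => List Nat → Bool) (fun _ => true)
    (fun f _ ih cs => @List.rec Nat (fun _ => Bool) false
      (fun c cs' _ => and (imp G c (Int.sub (-1) f)) (ih cs')) cs) l

theorem refs_sound {v : List Int} {G : List Int} (hG : Nn v G) : ∀ {l : List Int} {cs : List Nat},
    refs G l cs = true → ∀ f ∈ l, ∀ X, Rep v 64 f X → X < 0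
  | [], _, _, f, hf, _, _ => absurd hf (by simp)
  | a :: l, [], h, _, _, _, _ => by exact Bool.noConfusion (show false = true from h)
  | a :: l, c :: cs, h, f, hf, X, hX => by
    have h' : and (imp G c (-1 - a)) (refs G l cs) = true := h
    simp only [Bool.and_eq_true] at h'
    rcases List.mem_cons.1 hf with rfl | hf
    · have := imp_sound hG (((Rep.cst (c := -1) (C := 1) (by omega)).sub hX).mono
        (by norm_num)) h'.1
      omega
    · exact refs_sound hG h'.2 f hf X hX

/-- the form is different from all the forms of the list -/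
noncomputable def neks (G : List Int) (x : Int) (l : List Int) : List (Bool × Nat) → Bool :=
  @List.rec Int (fun _ => List (Bool × Nat) → Bool) (fun _ => true)
    (fun f _ ih cs => @List.rec (Bool × Nat) (fun _ => Bool) false
      (fun c cs' _ => and (@Prod.rec Bool Nat (fun _ => Bool) (fun b n => nek G x f b n) c)
        (ih cs')) cs) l

theorem neks_sound {v : List Int} {G : List Int} (hG : Nn v G) {x X : Int} (hx : Rep v 384 x X) :
    ∀ {l : List Int} {cs : List (Bool × Nat)},
    neks G x l cs = true → ∀ f ∈ l, ∀ Y, Rep v 64 f Y → X ≠ Y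
  | [], _, _, f, hf, _, _ => absurd hf (by simp)
  | a :: l, [], h, _, _, _, _ => by exact Bool.noConfusion (show false = true from h)
  | a :: l, (b, n) :: cs, h, f, hf, Y, hY => by
    have h' : and (nek G x a b n) (neks G x l cs) = true := h
    simp only [Bool.and_eq_true] at h'
    rcases List.mem_cons.1 hf with rfl | hf
    · exact nek_sound hG hx (hY.mono (by norm_num)) h'.1
    · exact neks_sound hG hx h'.2 f hf Y hY

/-- a clause holds -/
def Cla (v : List Int) (l : List Int) : Prop := ∃ f ∈ l, ∃ X, 0 ≤ X ∧ Rep v 64 f X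

noncomputable def zchk (G : List Int) (X : C3) (mm : Bool) (z c1 c2 c3 c4 : Nat) :
    Bool :=
  and (and (imp G c1 X.T) (imp G c2 (Int.neg X.T)))
    ((fun t => and (imp G c3 (Int.sub t 1)) (imp G c4 (Int.sub (Int.sub fp t) 1)))
      (Int.sub (@Bool.rec (fun _ => Int) X.S X.U mm) (zp z)))

/-- classes other than those with `θ ∈ Es` do not overlap the rectangle of class `0` -/
def NoOvZ (A : TAp) (Es : List ℤ) : Prop :=
  ∀ i U S θ, IsC A i U S θ → (∀ e ∈ Es, θ ≠ e) → ∀ z z' : ℤ,
    ¬ (0 ≤ U - z * NN A + A.q * A.w ∧ 0 ≤ A.q * A.w - (U - z * NN A) - 1 ∧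
      0 ≤ U + S - z' * NN A + A.q * A.h ∧ 0 ≤ A.q * A.h - (U + S - z' * NN A) - 1)

noncomputable def ovk (G E : List Int) (X : C3) (z z' c1 c2 c3 c4 : Nat)
    (e : List (Bool × Nat)) : Bool :=
  and ((fun u => and (imp G c1 (Int.add u fw)) (imp G c2 (Int.sub (Int.sub fw u) 1)))
    (Int.sub X.U (zp z)))
  (and ((fun u => and (imp G c3 (Int.add u fh)) (imp G c4 (Int.sub (Int.sub fh u) 1)))
    (Int.sub (Int.add X.U X.S) (zp z'))) (neks G X.T E e))

/-- the checker -/
noncomputable def chk (sp ovb : Bool) (bL bR : BD) (B : List C3) (N : List Int)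
    (O : List (List Int)) (E : List Int) (t : T) : List C3 → List Int → Bool :=
  @T.rec (fun _ => List C3 → List Int → Bool)
    (fun c _ G => imp G c (-1))
    (fun f _ _ iha ihb C G => and (iha C (dec 16 f :: G)) (ihb C (Int.sub (-1) (dec 16 f) :: G)))
    (fun k _ _ iha ihb C G => and (Nat.blt k N.length)
      (and (iha C (Int.sub (get1 k N) 1 :: G)) (ihb C (Int.sub (-1) (get1 k N) :: G))))
    (fun k cs _ G => @Option.rec (List Int) (fun _ => Bool) false (fun l => refs G l cs) (getL k O))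
    (fun code c1 c2 _ ih C G => (fun x => and (clk G x c1 c2)
      (ih (x :: C) G)) (rc 6 B code))
    (fun X z c1 c2 C G => @Option.rec C3 (fun _ => Bool) false
      (fun x => and (imp G c1 (Int.sub x.S (zp z))) (imp G c2 (Int.sub (zp z) x.S))) (get3 X C))
    (fun X z c1 c2 C G => @Option.rec C3 (fun _ => Bool) false
      (fun x => and (imp G c1 (Int.sub x.U (zp z))) (imp G c2 (Int.sub (zp z) x.U))) (get3 X C))
    (fun code mm z c1 c2 c3 c4 _ G => zchk G (rc 6 B code) mm z c1 c2 c3 c4)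
    (fun X z z' c1 c2 c3 c4 e C G => and ovb (@Option.rec C3 (fun _ => Bool) false
      (fun x => ovk G E x z z' c1 c2 c3 c4 e) (get3 X C)))
    (fun X Y side tb nb nc d1 d2 yc yo m1 m2 m3 m4 k0 k1 k2 k3 C G =>
      @Option.rec C3 (fun _ => Bool) false
        (fun x => @Option.rec C3 (fun _ => Bool) false
          (fun y => leafF G bL bR x y side tb nb nc d1 d2 yc yo m1 m2 m3 m4 k0 k1 k2 k3)
          (get3 Y C)) (get3 X C))
    (fun X R Y tb n1 n2 c1 c2 yc yo m1 m2 m3 m4 m5 m6 C G =>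
      @Option.rec C3 (fun _ => Bool) false
        (fun x => @Option.rec C3 (fun _ => Bool) false
          (fun r => @Option.rec C3 (fun _ => Bool) false
            (fun y => leafM G sp x r y tb n1 n2 c1 c2 yc yo m1 m2 m3 m4 m5 m6) (get3 Y C))
          (get3 R C)) (get3 X C))
    (fun X R Y tb n1 n2 c1 c2 yc yo m1 m2 m3 m4 m5 m6 k0 k1 k2 k3 C G =>
      @Option.rec C3 (fun _ => Bool) false
        (fun x => @Option.rec C3 (fun _ => Bool) false
          (fun r => @Option.rec C3 (fun _ => Bool) false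
            (fun y => leafN G sp x r y tb n1 n2 c1 c2 yc yo m1 m2 m3 m4 m5 m6 k0 k1 k2 k3)
              (get3 Y C))
          (get3 R C)) (get3 X C))
    (fun X R vk rb yc yo m1 m2 m3 m4 k0 k1 k2 k3 C G =>
      @Option.rec C3 (fun _ => Bool) false
        (fun x => @Option.rec C3 (fun _ => Bool) false
          (fun r => leafV G sp x r vk rb yc yo m1 m2 m3 m4 k0 k1 k2 k3)
          (get3 R C)) (get3 X C)) t

theorem opt_rec {α : Type} {f : α → Bool} {o : Option α}
    (h : @Option.rec α (fun _ => Bool) false f o = true) : ∃ x, o = some x ∧ f x = true := by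
  rcases o with _ | x
  · exact Bool.noConfusion (show false = true from h)
  · exact ⟨x, rfl, h⟩

theorem Nn.cons {v G : List Int} (hG : Nn v G) {f X : Int} (h0 : 0 ≤ X) (h : Rep v 1024 f X) :
    Nn v (f :: G) := by
  intro g hg
  rcases List.mem_cons.1 hg with rfl | hg
  · exact ⟨X, h0, h⟩
  · exact hG g hg

theorem zchk_sound {A : TAp} {v : List Int} {G : List Int} (hG : Nn v G) (hv : Env A v)
    {X : C3} {i : Int} (hX : RecOk A v 384 X i)
    {mm : Bool} {z c1 c2 c3 c4 : Nat}
    (h : zchk G X mm z c1 c2 c3 c4 = true) : False := by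
  obtain ⟨U, S, θ, hr, r1, r2, r3⟩ := hX
  unfold zchk at h
  simp only [Bool.and_eq_true] at h
  obtain ⟨⟨h1, h2⟩, h5, h6⟩ := h
  have e1 := imp_sound hG (r3.mono (by norm_num)) h1
  have e2 := imp_sound hG (r3.neg.mono (by norm_num)) h2
  have hθ : θ = 0 := by omega
  obtain ⟨zz, hz⟩ := hv.z z
  subst hθ
  have hi : i = 0 := by
    have h7 := hr.2.2
    rw [mul_zero] at h7
    rcases mul_eq_zero.1 h7 with h8 | h8
    · have := D_pos A; omega
    · exact h8
  subst hi
  have hp0 : (0 : Int) < NN A := NN_pos A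
  have key : ∀ V : Int, NN A ∣ V → 0 < V - zz * NN A → 0 < NN A - (V - zz * NN A) →
      False := by
    rintro V ⟨c, rfl⟩ h7 h8
    rw [show NN A * c - zz * NN A = NN A * (c - zz) by ring] at h7 h8
    have h9 : 0 < c - zz := (mul_pos_iff_of_pos_left hp0).1 h7
    nlinarith
  cases mm
  · have f5 := imp_sound hG (((r2.sub hz).sub Rep.one).mono (by norm_num)) h5
    have f6 := imp_sound hG (((hv.p.sub (r2.sub hz)).sub Rep.one).mono (by norm_num)) h6
    refine key S ?_ (by omega) (by omega)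
    obtain ⟨s, hs, hs'⟩ := hr.2.1
    rw [mul_zero, zero_sub, dvd_neg] at hs'
    obtain ⟨c, hc⟩ := hs'
    exact ⟨c, by rw [hs, hc]; unfold NN; ring⟩
  · have f5 := imp_sound hG (((r1.sub hz).sub Rep.one).mono (by norm_num)) h5
    have f6 := imp_sound hG (((hv.p.sub (r1.sub hz)).sub Rep.one).mono (by norm_num)) h6
    refine key U ?_ (by omega) (by omega)
    have := hr.1
    rwa [mul_zero, zero_sub, dvd_neg] at this

theorem IsC.row {A : TAp} {i U S θ : ℤ} (h : IsC A i U S θ) : ¬ NN A ∣ S := by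
  intro hS
  obtain ⟨m, f, s, c, hU, hs, f0, f1⟩ := h.cls
  obtain ⟨z, hz⟩ := hS
  refine TAp.rowne c ⟨z, ?_⟩
  have hq : (A.q : ℤ) ≠ 0 := A.q_pos'.ne'
  apply mul_left_cancel₀ hq
  rw [← hs, hz]; unfold NN; ring

theorem chk_sound {A : TAp} (F : A.Fl) {PL PR : ℤ → Prop} (hE : RuleF A PL PR) {v : List Int}
    (hv : Env A v) {sp ovb : Bool} (hsg : A.sg = if sp then 1 else -1)
    {bL bR : BD} {lL hL lR hR : Option Int} (b1 : BOk A v bL.lo lL) (b2 : BOk A v bL.hi hL)
    (b3 : BOk A v bR.lo lR) (b4 : BOk A v bR.hi hR)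
    (hPL : ∀ j, (∀ l ∈ lL, l < j) → (∀ u ∈ hL, j < u) → PL j)
    (hPR : ∀ j, (∀ l ∈ lR, l < j) → (∀ u ∈ hR, j < u) → PR j)
    {B : List C3} (hB : ∀ b ∈ B, ∃ i, RecOk A v 4 b i)
    {N : List Int} (hN : ∀ f ∈ N, ∃ X, X ≠ 0 ∧ Rep v 64 f X)
    {O : List (List Int)} (hO : ∀ l ∈ O, Cla v l)
    {E : List Int} {Es : List ℤ} (hEs : ∀ e ∈ Es, ∃ f ∈ E, Rep v 64 f e)
    (hov : ovb = true → NoOvZ A Es) :
    ∀ (t : T) (C : List C3) (G : List Int), (∀ X ∈ C, ∃ i, ClOk A v X i) → Nn v G →
      chk sp ovb bL bR B N O E t C G = true → False := by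
  intro t
  induction t with
  | inf c =>
    intro C G hC hG h
    have := imp_sound hG ((Rep.cst (c := -1) (C := 1) (by omega)).mono (by norm_num)) h
    omega
  | br f a b iha ihb =>
    intro C G hC hG h
    change and (chk sp ovb bL bR B N O E a C (dec 16 f :: G))
      (chk sp ovb bL bR B N O E b C ((-1 - dec 16 f) :: G)) = true at h
    simp only [Bool.and_eq_true] at h
    obtain ⟨l, h1, h2⟩ := dec_rep 16 f
    have hR : Rep v 32 (dec 16 f) (dot l (1 :: v)) := ⟨by norm_num, l, h1, h2, rfl⟩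
    rcases le_or_gt 0 (dot l (1 :: v)) with hf | hf
    · exact iha C _ hC (hG.cons hf (hR.mono (by norm_num))) h.1
    · exact ihb C _ hC (hG.cons (X := -1 - dot l (1 :: v)) (by omega)
        (((Rep.cst (c := -1) (C := 1) (by omega)).sub hR).mono (by norm_num))) h.2
  | ne k a b iha ihb =>
    intro C G hC hG h
    change and (Nat.blt k N.length) (and (chk sp ovb bL bR B N O E a C ((get1 k N - 1) :: G))
      (chk sp ovb bL bR B N O E b C ((-1 - get1 k N) :: G))) = true at h
    simp only [Bool.and_eq_true] at h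
    have hk : k < N.length := by
      have := h.1
      unfold Nat.blt at this
      exact Nat.le_of_ble_eq_true this
    obtain ⟨X, hX, hR⟩ := hN _ (get1_mem k N hk)
    rcases lt_or_gt_of_ne hX with h1 | h1
    · exact ihb C _ hC (hG.cons (X := -1 - X) (by omega)
        (((Rep.cst (c := -1) (C := 1) (by omega)).sub hR).mono (by norm_num))) h.2.2
    · exact iha C _ hC (hG.cons (X := X - 1) (by omega) ((hR.sub Rep.one).mono (by norm_num)))
        h.2.1
  | ax k cs =>
    intro C G hC hG h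
    obtain ⟨l, h1, h2⟩ := opt_rec h
    obtain ⟨f, hf, X, hX, hR⟩ := hO l (getL_mem h1)
    have := refs_sound hG h2 f hf X hR
    omega
  | cl code c1 c2 a ih =>
    intro C G hC hG h
    change and (clk G (rc 6 B code) c1 c2)
      (chk sp ovb bL bR B N O E a (rc 6 B code :: C) G) = true at h
    simp only [Bool.and_eq_true] at h
    obtain ⟨i, hi⟩ := rc_ok 6 B code hB
    have hi' : RecOk A v 384 (rc 6 B code) i := by
      obtain ⟨U, S, θ, hr, r1, r2, r3⟩ := hi
      exact ⟨U, S, θ, hr, r1.mono (by norm_num), r2.mono (by norm_num), r3.mono (by norm_num)⟩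
    have hcl := clk_sound hG hv hi' h.1
    refine ih _ _ ?_ hG h.2
    intro X hX
    rcases List.mem_cons.1 hX with rfl | hX
    · exact ⟨i, hcl⟩
    · exact hC X hX
  | rz X z c1 c2 =>
    intro C G hC hG h
    obtain ⟨x, h1, h2⟩ := opt_rec h
    simp only [Bool.and_eq_true] at h2
    obtain ⟨i, U, S, θ, c, r1, r2, r3⟩ := hC x (get3_mem h1)
    obtain ⟨zz, hz⟩ := hv.z z
    have e1 := imp_sound hG ((r2.sub hz).mono (by norm_num)) h2.1
    have e2 := imp_sound hG ((hz.sub r2).mono (by norm_num)) h2.2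
    exact c.row ⟨zz, by linear_combination (by omega : S = zz * NN A)⟩
  | qz X z c1 c2 =>
    intro C G hC hG h
    obtain ⟨x, h1, h2⟩ := opt_rec h
    simp only [Bool.and_eq_true] at h2
    obtain ⟨i, U, S, θ, c, r1, r2, r3⟩ := hC x (get3_mem h1)
    obtain ⟨zz, hz⟩ := hv.z z
    have e1 := imp_sound hG ((r1.sub hz).mono (by norm_num)) h2.1
    have e2 := imp_sound hG ((hz.sub r1).mono (by norm_num)) h2.2
    refine c.nd ⟨zz * A.p, ?_⟩
    have : U = zz * NN A := by omega
    rw [this]; unfold NN; ring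
  | zz code mm z c1 c2 c3 c4 =>
    intro C G hC hG h
    obtain ⟨i, hi⟩ := rc_ok 6 B code hB
    have hi' : RecOk A v 384 (rc 6 B code) i := by
      obtain ⟨U, S, θ, hr, r1, r2, r3⟩ := hi
      exact ⟨U, S, θ, hr, r1.mono (by norm_num), r2.mono (by norm_num), r3.mono (by norm_num)⟩
    exact zchk_sound hG hv hi' h
  | ov X z z' c1 c2 c3 c4 e =>
    intro C G hC hG h
    have h' : and ovb (@Option.rec C3 (fun _ => Bool) false
      (fun x => ovk G E x z z' c1 c2 c3 c4 e) (get3 X C)) = true := h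
    simp only [Bool.and_eq_true] at h'
    obtain ⟨h0, h'⟩ := h'
    obtain ⟨x, h1, h2⟩ := opt_rec h'
    unfold ovk at h2
    simp only [Bool.and_eq_true] at h2
    obtain ⟨⟨a1, a2⟩, ⟨a3, a4⟩, a5⟩ := h2
    obtain ⟨i, U, S, θ, c, r1, r2, r3⟩ := hC x (get3_mem h1)
    obtain ⟨zz, hz⟩ := hv.z z
    obtain ⟨zz', hz'⟩ := hv.z z'
    have hw := hv.w
    have hh := hv.h
    refine hov h0 i U S θ c ?_ zz zz' ⟨?_, ?_, ?_, ?_⟩
    · intro e' he'
      obtain ⟨f, hf, hR⟩ := hEs e' he'
      exact neks_sound hG r3 a5 f hf e' hR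
    · exact imp_sound hG (((r1.sub hz).add hw).mono (by norm_num)) a1
    · exact imp_sound hG (((hw.sub (r1.sub hz)).sub Rep.one).mono (by norm_num)) a2
    · exact imp_sound hG ((((r1.add r2).sub hz').add hh).mono (by norm_num)) a3
    · exact imp_sound hG (((hh.sub ((r1.add r2).sub hz')).sub Rep.one).mono (by norm_num)) a4
  | lf X Y side tb nb nc d1 d2 yc yo m1 m2 m3 m4 k0 k1 k2 k3 =>
    intro C G hC hG h
    obtain ⟨x, h1, h2⟩ := opt_rec h
    obtain ⟨y, h3, h4⟩ := opt_rec h2
    obtain ⟨i, hi⟩ := hC x (get3_mem h1)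
    obtain ⟨j, hj⟩ := hC y (get3_mem h3)
    exact leafF_sound hE hG hv b1 b2 b3 b4 hPL hPR hi hj h4
  | mm X R Y tb n1 n2 c1 c2 yc yo m1 m2 m3 m4 m5 m6 =>
    intro C G hC hG h
    obtain ⟨x, h1, h2⟩ := opt_rec h
    obtain ⟨r, h3, h4⟩ := opt_rec h2
    obtain ⟨y, h5, h6⟩ := opt_rec h4
    obtain ⟨i, hi⟩ := hC x (get3_mem h1)
    obtain ⟨j, hj⟩ := hC r (get3_mem h3)
    obtain ⟨l, hl⟩ := hC y (get3_mem h5)
    exact leafM_sound F hG hv hsg hi hj hl h6
  | mn X R Y tb n1 n2 c1 c2 yc yo m1 m2 m3 m4 m5 m6 k0 k1 k2 k3 =>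
    intro C G hC hG h
    obtain ⟨x, h1, h2⟩ := opt_rec h
    obtain ⟨r, h3, h4⟩ := opt_rec h2
    obtain ⟨y, h5, h6⟩ := opt_rec h4
    obtain ⟨i, hi⟩ := hC x (get3_mem h1)
    obtain ⟨j, hj⟩ := hC r (get3_mem h3)
    obtain ⟨l, hl⟩ := hC y (get3_mem h5)
    exact leafN_sound F hG hv hsg hi hj hl h6
  | mv X R vk rb yc yo m1 m2 m3 m4 k0 k1 k2 k3 =>
    intro C G hC hG h
    obtain ⟨x, h1, h2⟩ := opt_rec h
    obtain ⟨r, h3, h4⟩ := opt_rec h2
    obtain ⟨i, hi⟩ := hC x (get3_mem h1)
    obtain ⟨j, hj⟩ := hC r (get3_mem h3)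
    exact leafV_sound F hG hv hsg hi hj h4

/-! ### the interface -/

/-- a record in list form -/
structure LR where
  U : LF
  S : LF
  T : LF

def LR.bd (M : Int) (a : LR) : Bool := bdB M a.U && bdB M a.S && bdB M a.T

def LR.pk (a : LR) : C3 := ⟨pack a.U, pack a.S, pack a.T⟩

def bdR (M : Int) : List LR → Bool
  | [] => true
  | a :: l => a.bd M && bdR M l

def packR : List LR → List C3
  | [] => []
  | a :: l => a.pk :: packR l

/-- the record `a` belongs to the index `i` -/
def LR.Ok (A : TAp) (v : List Int) (a : LR) (i : Int) : Prop :=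
  Rec A i (dot a.U (1 :: v)) (dot a.S (1 :: v)) (dot a.T (1 :: v))

/-- the record `a` belongs to the class `i` -/
def LR.Cl (A : TAp) (v : List Int) (a : LR) (i : Int) : Prop :=
  IsC A i (dot a.U (1 :: v)) (dot a.S (1 :: v)) (dot a.T (1 :: v))

theorem LR.bd_sound {M : Int} {a : LR} (h : a.bd M = true) :
    Bd M a.U ∧ Bd M a.S ∧ Bd M a.T := by
  unfold LR.bd at h
  simp only [Bool.and_eq_true] at h
  exact ⟨bdB_sound h.1.1, bdB_sound h.1.2, bdB_sound h.2⟩

theorem packR_mem {X : C3} {M : Int} : ∀ {l : List LR}, bdR M l = true → X ∈ packR l →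
    ∃ a ∈ l, X = a.pk ∧ a.bd M = true
  | [], _, h => by simp [packR] at h
  | a :: l, h0, h => by
    simp only [bdR, Bool.and_eq_true] at h0
    rw [packR] at h
    rcases List.mem_cons.1 h with rfl | h
    · exact ⟨a, List.mem_cons_self, rfl, h0.1⟩
    · obtain ⟨b, h1, h2⟩ := packR_mem h0.2 h
      exact ⟨b, List.mem_cons_of_mem _ h1, h2⟩

def packLL : List (List LF) → List (List Int)
  | [] => []
  | a :: l => packL a :: packLL l

def bdLL (M : Int) : List (List LF) → Bool
  | [] => true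
  | a :: l => bdL M a && bdLL M l

theorem packLL_mem {X : List Int} {M : Int} : ∀ {l : List (List LF)}, bdLL M l = true →
    X ∈ packLL l → ∃ a ∈ l, X = packL a ∧ bdL M a = true
  | [], _, h => by simp [packLL] at h
  | a :: l, h0, h => by
    simp only [bdLL, Bool.and_eq_true] at h0
    rw [packLL] at h
    rcases List.mem_cons.1 h with rfl | h
    · exact ⟨a, List.mem_cons_self, rfl, h0.1⟩
    · obtain ⟨b, h1, h2⟩ := packLL_mem h0.2 h
      exact ⟨b, List.mem_cons_of_mem _ h1, h2⟩

/-- bounds for the index of a free wall: forms `θ` of the bounds -/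
structure LB where
  lo : Option LF
  hi : Option LF

def packO : Option LF → Option Int
  | none => none
  | some a => some (pack a)

def bdO (M : Int) : Option LF → Bool
  | none => true
  | some a => bdB M a

/-- the form is `θ` of the index `i` -/
def OOk (A : TAp) (v : List Int) : Option LF → Option Int → Prop
  | none, none => True
  | some a, some i => A.D * i = A.p * dot a (1 :: v)
  | _, _ => False

theorem OOk.bok {A : TAp} {v : List Int} : ∀ {a : Option LF} {i : Option Int}, OOk A v a i →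
    bdO 64 a = true → BOk A v (packO a) i
  | none, none, _, _ => trivial
  | none, some _, h, _ => h.elim
  | some _, none, h, _ => h.elim
  | some a, some i, h, hb =>
    ⟨_, h, ⟨by norm_num, a, rfl, (bdB_sound hb).mono (by norm_num), rfl⟩⟩

/-- all static data of a run -/
structure Dat where
  sp : Bool
  ov : Bool
  L : LB
  R : LB
  B : List LR
  C : List LR
  N : List LF
  O : List (List LF)
  E : List LF
  G : List LF

/-- the complete check -/
noncomputable def Dat.chk (d : Dat) (t : T) : Bool :=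
  and ((bdO 64 d.L.lo && bdO 64 d.L.hi && bdO 64 d.R.lo &&
    bdO 64 d.R.hi) && (bdR 4 d.B && bdR 384 d.C) && (bdL 64 d.N && bdLL 64 d.O && bdL 64 d.E &&
    bdL 1024 d.G))
  (RT.chk d.sp d.ov ⟨packO d.L.lo, packO d.L.hi⟩ ⟨packO d.R.lo, packO d.R.hi⟩
    (packR d.B) (packL d.N) (packLL d.O) (packL d.E) t (packR d.C) (packL d.G))

def AllB (A : TAp) (v : List Int) : List LR → Prop
  | [] => True
  | a :: l => (∃ i, a.Ok A v i) ∧ AllB A v l

theorem AllB.mem {A : TAp} {v : List Int} {a : LR} : ∀ {l : List LR}, AllB A v l → a ∈ l →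
    ∃ i, a.Ok A v i
  | [], _, h => by simp at h
  | b :: l, h0, h => by
    rcases List.mem_cons.1 h with rfl | h
    · exact h0.1
    · exact AllB.mem h0.2 h

def AllC (A : TAp) (v : List Int) : List LR → Prop
  | [] => True
  | a :: l => (∃ i, a.Cl A v i) ∧ AllC A v l

theorem AllC.mem {A : TAp} {v : List Int} {a : LR} : ∀ {l : List LR}, AllC A v l → a ∈ l →
    ∃ i, a.Cl A v i
  | [], _, h => by simp at h
  | b :: l, h0, h => by
    rcases List.mem_cons.1 h with rfl | h
    · exact h0.1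
    · exact AllC.mem h0.2 h

/-- one of the forms is nonnegative -/
def AnyNn (v : List Int) : List LF → Prop
  | [] => False
  | a :: l => 0 ≤ dot a (1 :: v) ∨ AnyNn v l

theorem AnyNn.cla {v : List Int} : ∀ {l : List LF}, AnyNn v l → bdL 64 l = true →
    Cla v (packL l)
  | [], h, _ => h.elim
  | a :: l, h, hb => by
    simp only [bdL, Bool.and_eq_true] at hb
    rcases h with h | h
    · exact ⟨pack a, List.mem_cons_self, _, h, by norm_num, a, rfl, bdB_sound hb.1, rfl⟩
    · obtain ⟨f, h1, h2⟩ := AnyNn.cla h hb.2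
      exact ⟨f, List.mem_cons_of_mem _ h1, h2⟩

def AllO (v : List Int) : List (List LF) → Prop
  | [] => True
  | a :: l => AnyNn v a ∧ AllO v l

theorem AllO.mem {v : List Int} {a : List LF} : ∀ {l : List (List LF)}, AllO v l → a ∈ l →
    AnyNn v a
  | [], _, h => by simp at h
  | b :: l, h0, h => by
    rcases List.mem_cons.1 h with rfl | h
    · exact h0.1
    · exact AllO.mem h0.2 h

/-- the values of the forms -/
def vals (v : List Int) : List LF → List ℤ
  | [] => []
  | a :: l => dot a (1 :: v) :: vals v l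

theorem vals_mem {v : List Int} {e : ℤ} : ∀ {l : List LF}, bdL 64 l = true → e ∈ vals v l →
    ∃ f ∈ packL l, Rep v 64 f e
  | [], _, h => by simp [vals] at h
  | a :: l, hb, h => by
    simp only [bdL, Bool.and_eq_true] at hb
    rw [vals] at h
    rcases List.mem_cons.1 h with rfl | h
    · exact ⟨pack a, List.mem_cons_self, by norm_num, a, rfl, bdB_sound hb.1, rfl⟩
    · obtain ⟨f, h1, h2⟩ := vals_mem hb.2 h
      exact ⟨f, List.mem_cons_of_mem _ h1, h2⟩

/-- a checked tree contradicts flatness -/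
theorem run {A : TAp} (F : A.Fl) {PL PR : ℤ → Prop} (hE : RuleF A PL PR) (d : Dat)
    {v : List Int} (hv : Env A v) (hsg : A.sg = if d.sp then 1 else -1)
    {lL hL lR hR : Option Int} (b1 : OOk A v d.L.lo lL) (b2 : OOk A v d.L.hi hL)
    (b3 : OOk A v d.R.lo lR) (b4 : OOk A v d.R.hi hR)
    (hPL : ∀ j, (∀ l ∈ lL, l < j) → (∀ u ∈ hL, j < u) → PL j)
    (hPR : ∀ j, (∀ l ∈ lR, l < j) → (∀ u ∈ hR, j < u) → PR j)
    (hB : AllB A v d.B) (hC : AllC A v d.C) (hN : AllNe v d.N) (hO : AllO v d.O)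
    (hov : d.ov = true → NoOvZ A (vals v d.E))
    (hG : AllNn v d.G) {t : T} (h : d.chk t = true) : False := by
  unfold Dat.chk at h
  simp only [Bool.and_eq_true] at h
  obtain ⟨⟨⟨⟨⟨⟨a3, a4⟩, a5⟩, a6⟩, a7, a8⟩, ⟨⟨a9, a10⟩, a12⟩, a11⟩, h⟩ := h
  refine chk_sound F hE hv hsg (b1.bok a3) (b2.bok a4) (b3.bok a5) (b4.bok a6)
    hPL hPR ?_ ?_ ?_ (Es := vals v d.E) ?_ hov t (packR d.C) (packL d.G) ?_ ?_ h
  · intro b hb
    obtain ⟨a, h1, rfl, h3⟩ := packR_mem a7 hb
    obtain ⟨i, hi⟩ := hB.mem h1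
    obtain ⟨c1, c2, c3⟩ := LR.bd_sound h3
    exact ⟨i, _, _, _, hi, ⟨by norm_num, a.U, rfl, c1, rfl⟩, ⟨by norm_num, a.S, rfl, c2, rfl⟩,
      ⟨by norm_num, a.T, rfl, c3, rfl⟩⟩
  · intro f hf
    obtain ⟨l, hl, rfl⟩ := packL_mem hf
    exact ⟨_, hN.mem hl, by norm_num, l, rfl, bdL_sound a9 l hl, rfl⟩
  · intro l hl
    obtain ⟨a, h1, rfl, h3⟩ := packLL_mem a10 hl
    exact (hO.mem h1).cla h3
  · intro e he
    exact vals_mem a12 he
  · intro X hX
    obtain ⟨a, h1, rfl, h3⟩ := packR_mem a8 hX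
    obtain ⟨i, hi⟩ := hC.mem h1
    obtain ⟨c1, c2, c3⟩ := LR.bd_sound h3
    exact ⟨i, _, _, _, hi, ⟨by norm_num, a.U, rfl, c1, rfl⟩,
      ⟨by norm_num, a.S, rfl, c2, rfl⟩, ⟨by norm_num, a.T, rfl, c3, rfl⟩⟩
  · intro g hg
    obtain ⟨l, hl, rfl⟩ := packL_mem hg
    exact ⟨_, hG.mem hl, by norm_num, l, rfl, bdL_sound a11 l hl, rfl⟩

end Pool.Agent.H78.RT
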